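import Pool.Agent.SparseIrr.Cert

namespace Pool.Agent.SparseIrr

open MvPolynomial

variable {σ : Type*} {F : Type*} [Field F] (p : ℕ) [hp : Fact p.Prime] [CharP F p]

omit hp [CharP F p] in
lemma X_dvd_of_forall (i : σ) (h : MvPolynomial σ F) (hh : ∀ β ∈ h.support, β i ≠ 0) :
    X i ∣ h := by
  classical
  rw [X_dvd_iff_modMonomial_eq_zero]
  ext m
  rw [coeff_zero]
  by_cases hm : Finsupp.single i 1 ≤ m
  · exact coeff_modMonomial_of_le _ hm
  · rw [coeff_modMonomial_of_not_le _ hm]
    by_contra hne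
    apply hm
    have := hh m (mem_support_iff.mpr hne)
    rw [Finsupp.single_le_iff]
    omega

lemma eq_pow_of_dvd [PerfectField F] (h : MvPolynomial σ F)
    (hh : ∀ β ∈ h.support, ∀ i, p ∣ β i) : ∃ M, h = M ^ p := by
  classical
  have hE : ExpChar F p := ExpChar.prime hp.out
  refine ⟨∑ β ∈ h.support, monomial (β.mapRange (· / p) (Nat.zero_div p))
    ((frobeniusEquiv F p).symm (coeff β h)), ?_⟩
  have : ExpChar (MvPolynomial σ F) p := inferInstance
  rw [sum_pow_char p]
  conv_lhs => rw [as_sum h]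
  apply Finset.sum_congr rfl
  intro β hβ
  have e : p • β.mapRange (· / p) (Nat.zero_div p) = β := by
    ext i
    simp only [Finsupp.smul_apply, Finsupp.mapRange_apply, smul_eq_mul]
    exact Nat.mul_div_cancel' (hh β hβ i)
  rw [monomial_pow, e, frobeniusEquiv_symm_pow_p]

lemma exists_pow_of_theta [PerfectField F] (h : MvPolynomial σ F) (hX : ∀ i, ¬ X i ∣ h)
    (hθ : ∀ i, ∃ c : F, theta i h = C c * h) : ∃ M, h = M ^ p := by
  apply eq_pow_of_dvd p h
  intro β hβ i
  obtain ⟨c, hc⟩ := hθ i
  have key : ∀ γ ∈ h.support, (γ i : F) = c := by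
    intro γ hγ
    have h1 : coeff γ (theta i h) = coeff γ (C c * h) := by rw [hc]
    rw [coeff_theta, coeff_C_mul] at h1
    exact mul_right_cancel₀ (mem_support_iff.mp hγ) h1
  have : ∃ β0 ∈ h.support, β0 i = 0 := by
    by_contra hcon
    push Not at hcon
    exact hX i (X_dvd_of_forall i h hcon)
  obtain ⟨β0, hβ0, h0⟩ := this
  have hc0 : c = 0 := by
    rw [← key β0 hβ0, h0, Nat.cast_zero]
  rw [← CharP.cast_eq_zero_iff F p, key β hβ, hc0]

omit hp [CharP F p] in
/-- soundness of certificates -/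
lemma not_irreducible_of_cert (f a b w : MvPolynomial σ F) (h : f * w = a * b)
    (ha : a.totalDegree ≤ f.totalDegree) (hb : b.totalDegree ≤ f.totalDegree)
    (ha' : ∀ c : F, a ≠ C c * f) (hb' : ∀ c : F, b ≠ C c * f) : ¬ Irreducible f := by
  intro hirr
  have hprime : Prime f := hirr.prime
  have key : ∀ x : MvPolynomial σ F, x.totalDegree ≤ f.totalDegree → (∀ c : F, x ≠ C c * f) →
      ¬ f ∣ x := by
    rintro x hx hx' ⟨y, rfl⟩
    have hy : y ≠ 0 := by
      rintro rfl
      exact hx' 0 (by simp)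
    rw [totalDegree_mul_of_isDomain hprime.ne_zero hy] at hx
    have hy0 : y.totalDegree = 0 := by omega
    rw [totalDegree_eq_zero_iff_eq_C] at hy0
    apply hx' (coeff 0 y)
    rw [← hy0, mul_comm]
  rcases hprime.dvd_or_dvd (Dvd.intro w h) with h1 | h1
  · exact key a ha ha' h1
  · exact key b hb hb' h1

lemma mk_cert (m : ℕ) (f G K G' K' w : MvPolynomial σ F) (i j : σ) (hf0 : f ≠ 0)
    (hdeg : ∀ i, f.degreeOf i < p ^ m)
    (h1 : f = G * K) (h2 : f = G' * K')
    (hw : f * w = (K * theta i G) * (K' * theta j G'))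
    (hG : ∀ c : F, theta i G ≠ C c * G) (hG' : ∀ c : F, theta j G' ≠ C c * G') :
    ∃ a b w : MvPolynomial σ F, f * w = a * b ∧
      a.totalDegree ≤ f.totalDegree ∧ b.totalDegree ≤ f.totalDegree ∧
      (∀ c : F, a ≠ C c * f) ∧ (∀ c : F, b ≠ C c * f) ∧
      a.support.card ≤ (f ^ (p - 1)).support.card ^ m ∧
      b.support.card ≤ (f ^ (p - 1)).support.card ^ m ∧
      w.support.card ≤ (f ^ (p - 1)).support.card ^ (3 * m) := by
  have hn : ∀ (G K : MvPolynomial σ F) (i : σ), f = G * K → (∀ c : F, theta i G ≠ C c * G) →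
      ∀ c : F, K * theta i G ≠ C c * f := by
    intro G K i hGK hG c hc
    have hK : K ≠ 0 := by rintro rfl; apply hf0; rw [hGK, mul_zero]
    apply hG c
    apply mul_left_cancel₀ hK
    rw [hc, hGK]; ring
  have ba := support_bound p m i f G K h1 hf0 hdeg
  have bb := support_bound p m j f G' K' h2 hf0 hdeg
  refine ⟨K * theta i G, K' * theta j G', w, hw, totalDegree_log_le i f G K h1 hf0,
    totalDegree_log_le j f G' K' h2 hf0, hn G K i h1 hG, hn G' K' j h2 hG', ba, bb, ?_⟩
  have hwb : ∀ β ∈ w.support, ∀ l, β l < p ^ m := by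
    intro β hβ l
    have hw0 : w ≠ 0 := by rintro rfl; simp at hβ
    have e1 : (f * w).degreeOf l = f.degreeOf l + w.degreeOf l := degreeOf_mul_eq hf0 hw0
    have e2 := degreeOf_mul_le l (K * theta i G) (K' * theta j G')
    rw [← hw, e1] at e2
    have e3 := degreeOf_log_le i l f G K h1 hf0
    have e4 := degreeOf_log_le j l f G' K' h2 hf0
    have e5 := monomial_le_degreeOf l hβ
    have e6 := hdeg l
    omega
  have hc := cofactor_bound p m f w _ hw hwb
  have hfs : 1 ≤ f.support.card := by
    rw [Nat.one_le_iff_ne_zero, Finset.card_ne_zero]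
    rwa [support_nonempty]
  calc w.support.card ≤ w.support.card * f.support.card := Nat.le_mul_of_pos_right _ hfs
    _ ≤ _ := hc
    _ ≤ ((f ^ (p - 1)).support.card ^ m * (f ^ (p - 1)).support.card ^ m)
        * (f ^ (p - 1)).support.card ^ m := by
        apply Nat.mul_le_mul_right
        exact (card_support_mul_le _ _).trans (Nat.mul_le_mul ba bb)
    _ = (f ^ (p - 1)).support.card ^ (3 * m) := by
        rw [← pow_add, ← pow_add]; congr 1; ring

theorem cert_of_reducible [PerfectField F] (m : ℕ) (f : MvPolynomial σ F)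
    (hdeg : ∀ i, f.degreeOf i < p ^ m) (hf : 0 < f.totalDegree) (hred : ¬ Irreducible f) :
    ∃ a b w : MvPolynomial σ F, f * w = a * b ∧
      a.totalDegree ≤ f.totalDegree ∧ b.totalDegree ≤ f.totalDegree ∧
      (∀ c : F, a ≠ C c * f) ∧ (∀ c : F, b ≠ C c * f) ∧
      a.support.card ≤ (f ^ (p - 1)).support.card ^ m ∧
      b.support.card ≤ max f.support.card ((f ^ (p - 1)).support.card ^ m) ∧
      w.support.card ≤ (f ^ (p - 1)).support.card ^ (3 * m) := by
  classical
  have hf0 : f ≠ 0 := by rintro rfl; simp at hf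
  have hfs : ∀ k, 1 ≤ (f ^ k).support.card := by
    intro k
    rw [Nat.one_le_iff_ne_zero, Finset.card_ne_zero, support_nonempty]
    exact pow_ne_zero _ hf0
  have hfu : ¬ IsUnit f := by
    intro hu
    rw [isUnit_iff_eq_C_of_isReduced] at hu
    obtain ⟨r, _, rfl⟩ := hu
    simp at hf
  by_cases hX : ∃ i, X i ∣ f
  · obtain ⟨i, b, hb⟩ := hX
    have hXirr : Prime (X i : MvPolynomial σ F) := X_prime
    have hbu : ¬ IsUnit b := by
      intro hu
      apply hred
      rw [hb]
      exact (associated_mul_unit_right (X i) b hu).irreducible hXirr.irreducible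
    have hb0 : b ≠ 0 := by rintro rfl; apply hf0; rw [hb, mul_zero]
    have hX0 : (X i : MvPolynomial σ F) ≠ 0 := X_ne_zero i
    refine ⟨X i, b, 1, by rw [hb, mul_one], ?_, ?_, ?_, ?_, ?_, ?_, ?_⟩
    · rw [totalDegree_X]; exact hf
    · rw [hb, totalDegree_mul_of_isDomain hX0 hb0]; omega
    · intro c hc
      apply hbu
      have : X i * 1 = X i * (C c * b) := by
        rw [mul_one]; conv_lhs => rw [hc, hb]
        ring
      have h2 := mul_left_cancel₀ hX0 this
      exact IsUnit.of_mul_eq_one (C c) (by rw [mul_comm]; exact h2.symm)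
    · intro c hc
      apply hXirr.not_isUnit
      have : b * 1 = b * (C c * X i) := by
        rw [mul_one]; conv_lhs => rw [hc, hb]
        ring
      have h2 := mul_left_cancel₀ hb0 this
      exact IsUnit.of_mul_eq_one (C c) (by rw [mul_comm]; exact h2.symm)
    · rw [support_X, Finset.card_singleton]
      exact Nat.one_le_pow _ _ (hfs _)
    · apply le_max_of_le_left
      rw [hb, mul_comm, support_mul_X, Finset.card_map]
    · have h1 := card_support_pow_le (1 : MvPolynomial σ F) 0
      rw [pow_zero, pow_zero] at h1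
      exact h1.trans (Nat.one_le_pow _ _ (hfs _))
  · push Not at hX
    -- a theta for every divisor which is not a `p`-th power
    have hth : ∀ g, g ∣ f → (¬ ∃ M, g = M ^ p) → ∃ i, ∀ c : F, theta i g ≠ C c * g := by
      intro g hg hM
      by_contra hcon
      push Not at hcon
      exact hM (exists_pow_of_theta p g (fun i hi => hX i (hi.trans hg)) hcon)
    have hirrM : ∀ g : MvPolynomial σ F, Irreducible g → ¬ ∃ M, g = M ^ p := by
      rintro g hg ⟨M, rfl⟩
      exact not_irreducible_pow hp.out.ne_one hg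
    by_cases hsq : ∃ g, Irreducible g ∧ g * g ∣ f
    · obtain ⟨g, hg, k, hk⟩ := hsq
      obtain ⟨i, hi⟩ := hth g ((Dvd.intro _ rfl).trans (Dvd.intro k hk.symm)) (hirrM g hg)
      have e1 : f = g * (g * k) := by rw [hk]; ring
      obtain ⟨a, b, w, h1, h2, h3, h4, h5, h6, h7, h8⟩ :=
        mk_cert p m f g (g * k) g (g * k) (k * (theta i g) ^ 2) i i hf0 hdeg e1 e1
          (by rw [hk]; ring) hi hi
      exact ⟨a, b, w, h1, h2, h3, h4, h5, h6, le_max_of_le_right h7, h8⟩
    · push Not at hsq
      obtain ⟨g, hg, k, hk⟩ := WfDvdMonoid.exists_irreducible_factor hfu hf0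
      have hku : ¬ IsUnit k := by
        intro hu
        apply hred
        rw [hk]
        exact (associated_mul_unit_right g k hu).irreducible hg
      have hk0 : k ≠ 0 := by rintro rfl; apply hf0; rw [hk, mul_zero]
      obtain ⟨i, hi⟩ := hth g (Dvd.intro k hk.symm) (hirrM g hg)
      have hkM : ¬ ∃ M, k = M ^ p := by
        rintro ⟨M, hM⟩
        have hM0 : M ≠ 0 := by
          rintro rfl; apply hk0; rw [hM, zero_pow hp.out.ne_zero]
        have hMu : ¬ IsUnit M := by
          intro hu; apply hku; rw [hM]; exact hu.pow p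
        obtain ⟨l, hl, hlM⟩ := WfDvdMonoid.exists_irreducible_factor hMu hM0
        apply hsq l hl
        have h2 : l * l ∣ M ^ p := by
          rw [← pow_two]
          exact (pow_dvd_pow_of_dvd hlM 2).trans (pow_dvd_pow M hp.out.two_le)
        rw [hk, hM]
        exact h2.trans (Dvd.intro_left g rfl)
      obtain ⟨j, hj⟩ := hth k (Dvd.intro_left g hk.symm) hkM
      obtain ⟨a, b, w, h1, h2, h3, h4, h5, h6, h7, h8⟩ :=
        mk_cert p m f g k k g (theta i g * theta j k) i j hf0 hdeg hk (by rw [hk]; ring)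
          (by rw [hk]; ring) hi hj
      exact ⟨a, b, w, h1, h2, h3, h4, h5, h6, le_max_of_le_right h7, h8⟩

/-- Quasi-polynomial size certificates of reducibility in characteristic `p`. -/
theorem reducible_iff_cert [PerfectField F] (m : ℕ) (f : MvPolynomial σ F)
    (hdeg : ∀ i, f.degreeOf i < p ^ m) (hf : 0 < f.totalDegree) :
    ¬ Irreducible f ↔ ∃ a b w : MvPolynomial σ F, f * w = a * b ∧
      a.totalDegree ≤ f.totalDegree ∧ b.totalDegree ≤ f.totalDegree ∧
      (∀ c : F, a ≠ C c * f) ∧ (∀ c : F, b ≠ C c * f) ∧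
      a.support.card ≤ f.support.card ^ ((p - 1) * m) ∧
      b.support.card ≤ f.support.card ^ ((p - 1) * m) ∧
      w.support.card ≤ f.support.card ^ (3 * ((p - 1) * m)) := by
  constructor
  · intro hred
    obtain ⟨a, b, w, h1, h2, h3, h4, h5, h6, h7, h8⟩ := cert_of_reducible p m f hdeg hf hred
    have hf0 : f ≠ 0 := by rintro rfl; simp at hf
    have hfs : 1 ≤ f.support.card := by
      rw [Nat.one_le_iff_ne_zero, Finset.card_ne_zero, support_nonempty]
      exact hf0
    have hm : 1 ≤ m := by
      by_contra hcon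
      have hm0 : m = 0 := by omega
      subst hm0
      obtain ⟨β, hβ⟩ := support_nonempty.mpr hf0
      have : f.totalDegree = 0 := by
        rw [totalDegree_eq_zero_iff]
        intro β hβ i
        have h1 := monomial_le_degreeOf i hβ
        have h2 := hdeg i
        rw [pow_zero] at h2
        omega
      omega
    have hp1 : 1 ≤ p - 1 := by have := hp.out.two_le; omega
    have hb1 : (f ^ (p - 1)).support.card ^ m ≤ f.support.card ^ ((p - 1) * m) := by
      rw [pow_mul]
      exact Nat.pow_le_pow_left (card_support_pow_le f (p - 1)) m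
    have hb0 : f.support.card ≤ f.support.card ^ ((p - 1) * m) :=
      Nat.le_self_pow (by positivity) _
    refine ⟨a, b, w, h1, h2, h3, h4, h5, h6.trans hb1, h7.trans (max_le hb0 hb1), h8.trans ?_⟩
    calc (f ^ (p - 1)).support.card ^ (3 * m) ≤ (f.support.card ^ (p - 1)) ^ (3 * m) :=
          Nat.pow_le_pow_left (card_support_pow_le f (p - 1)) (3 * m)
      _ = f.support.card ^ (3 * ((p - 1) * m)) := by
          rw [← pow_mul]; congr 1; ring
  · rintro ⟨a, b, w, h1, h2, h3, h4, h5, -, -, -⟩
    exact not_irreducible_of_cert f a b w h1 h2 h3 h4 h5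

end Pool.Agent.SparseIrr
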