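import Mathlib

namespace Pool.Agent.SparseIrr

open MvPolynomial

/-- Componentwise rounding up of `v / q`, for an exponent vector `v` and `q : ℕ`
(for `q = 0` the value is zero). -/
noncomputable def ceilDiv {σ : Type*} (q : ℕ) (v : σ →₀ ℕ) : σ →₀ ℕ :=
  v.mapRange (fun x => (x + (q - 1)) / q) (by
    rcases Nat.eq_zero_or_pos q with h | h
    · subst h; rfl
    · exact Nat.div_eq_of_lt (by omega))

open scoped Classical in
/-- The explicit finite set of exponent vectors `ceil ((∑ j < m, p ^ j • δ j) / p ^ m)`, where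
`δ 0, ..., δ (m - 1)` run over all `m`-tuples of exponent vectors of monomials of
`f ^ (p - 1)`. -/
noncomputable def cand {σ F : Type*} [Field F] (p m : ℕ) (f : MvPolynomial σ F) :
    Finset (σ →₀ ℕ) :=
  (Fintype.piFinset (fun _ : Fin m => (f ^ (p - 1)).support)).image
    (fun δ => ceilDiv (p ^ m) (∑ j : Fin m, p ^ (j : ℕ) • δ j))

end Pool.Agent.SparseIrr
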