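import Pool.Agent.SparseIrr.Linear
import Pool.Agent.SparseIrr.Cand

namespace Pool.Agent.SparseIrr

open MvPolynomial

variable {σ : Type*} {F : Type*} [Field F] (p : ℕ) [hp : Fact p.Prime] [CharP F p]

omit hp [CharP F p] in
lemma card_cand_le (m : ℕ) (f : MvPolynomial σ F) :
    (cand p m f).card ≤ f.support.card ^ ((p - 1) * m) := by
  classical
  unfold cand
  refine Finset.card_image_le.trans ?_
  rw [Fintype.card_piFinset_const, pow_mul]
  exact Nat.pow_le_pow_left (card_support_pow_le f (p - 1)) m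

omit hp in
lemma iterate_repr (S U : Finset (σ →₀ ℕ))
    (h : ∀ β ∈ U, ∃ δ ∈ S, ∃ γ ∈ U, p • β = δ + γ) (m : ℕ) :
    ∀ β ∈ U, ∃ δ : Fin m → (σ →₀ ℕ), (∀ j, δ j ∈ S) ∧ ∃ γ ∈ U,
      p ^ m • β = ∑ j : Fin m, p ^ (j : ℕ) • δ j + γ := by
  induction m with
  | zero =>
    intro β hβ
    exact ⟨fun j => j.elim0, fun j => j.elim0, β, hβ, by simp⟩
  | succ m ih =>
    intro β hβ
    obtain ⟨δ0, hδ0, β', hβ', e⟩ := h β hβ
    obtain ⟨δ, hδ, γ, hγ, e2⟩ := ih β' hβ'
    refine ⟨Fin.snoc δ δ0, ?_, γ, hγ, ?_⟩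
    · intro j
      refine Fin.lastCases ?_ (fun j => ?_) j
      · rw [Fin.snoc_last]; exact hδ0
      · rw [Fin.snoc_castSucc]; exact hδ j
    · rw [Fin.sum_univ_castSucc]
      simp only [Fin.snoc_castSucc, Fin.snoc_last, Fin.val_castSucc, Fin.val_last]
      rw [pow_succ, mul_smul, e, smul_add, e2]
      abel

lemma support_subset_cand (m : ℕ) (i : σ) (f G K : MvPolynomial σ F) (hf : f = G * K)
    (hf0 : f ≠ 0) (hdeg : ∀ j, f.degreeOf j < p ^ m) :
    (K * theta i G).support ⊆ cand p m f := by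
  classical
  intro β hβ
  have hstep : ∀ β ∈ (K * theta i G).support, ∃ δ ∈ (f ^ (p - 1)).support,
      ∃ γ ∈ (K * theta i G).support, p • β = δ + γ := by
    intro β hβ
    have h1 : coeff (p • β) (f ^ (p - 1) * (K * theta i G)) ≠ 0 := by
      rw [coeff_log p i f G K hf]
      exact pow_ne_zero _ (mem_support_iff.mp hβ)
    have h2 := support_mul (f ^ (p - 1)) (K * theta i G) (mem_support_iff.mpr h1)
    rw [Finset.mem_add] at h2
    obtain ⟨δ, hδ, γ, hγ, e⟩ := h2
    exact ⟨δ, hδ, γ, hγ, e.symm⟩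
  obtain ⟨δ, hδ, γ, hγ, e⟩ := iterate_repr p _ _ hstep m β hβ
  unfold cand
  rw [Finset.mem_image]
  refine ⟨δ, Fintype.mem_piFinset.mpr hδ, ?_⟩
  ext l
  unfold ceilDiv
  rw [Finsupp.mapRange_apply]
  have e' := DFunLike.congr_fun e l
  rw [Finsupp.add_apply, Finsupp.smul_apply, smul_eq_mul] at e'
  set D := (∑ j : Fin m, p ^ (j : ℕ) • δ j) l
  have hγl : γ l < p ^ m :=
    lt_of_le_of_lt ((monomial_le_degreeOf l hγ).trans (degreeOf_log_le i l f G K hf hf0)) (hdeg l)
  set q := p ^ m
  have hq : 0 < q := by omega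
  have : D + (q - 1) = q * β l + (q - 1 - γ l) := by omega
  rw [this, Nat.mul_add_div hq, Nat.div_eq_of_lt (by omega), add_zero]

omit hp [CharP F p] in
lemma eq_C_mul_of_dvd (f x : MvPolynomial σ F) (hf : f ≠ 0) (hd : f ∣ x)
    (hx : x.totalDegree ≤ f.totalDegree) : ∃ c : F, x = C c * f := by
  obtain ⟨y, rfl⟩ := hd
  by_cases hy : y = 0
  · exact ⟨0, by simp [hy]⟩
  rw [totalDegree_mul_of_isDomain hf hy] at hx
  have hy0 : y.totalDegree = 0 := by omega
  rw [totalDegree_eq_zero_iff_eq_C] at hy0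
  exact ⟨coeff 0 y, by rw [← hy0, mul_comm]⟩

include p in
lemma exists_not_dvd_theta [PerfectField F] (f g : MvPolynomial σ F) (hX : ∀ i, ¬ X i ∣ f)
    (hg : Irreducible g) (hgf : g ∣ f) : ∃ i, ¬ g ∣ theta i g := by
  by_contra hcon
  push Not at hcon
  have h1 : ∀ i, ∃ c : F, theta i g = C c * g := fun i =>
    eq_C_mul_of_dvd g _ hg.ne_zero (hcon i) (totalDegree_theta_le i g)
  obtain ⟨M, hM⟩ := exists_pow_of_theta p g (fun i hi => hX i (hi.trans hgf)) h1
  rw [hM] at hg
  exact not_irreducible_pow hp.out.ne_one hg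

/-- triviality of a tuple -/
def Triv (f : MvPolynomial σ F) (u : σ → MvPolynomial σ F) : Prop :=
  ∃ (c : ℤ) (d : σ → ℤ), ∀ i, u i = C (c : F) * theta i f + C (d i : F) * f

/-- the linear system -/
def Sys (p m : ℕ) (f : MvPolynomial σ F) (u : σ → MvPolynomial σ F) : Prop :=
  (∀ i, (u i).support ⊆ cand p m f) ∧
  (∀ i, (u i).totalDegree ≤ f.totalDegree) ∧
  (∀ i, proj p i (f ^ (p - 1) * u i) = (u i) ^ p) ∧
  (∀ i j, f * (theta j (u i) - theta i (u j)) = u i * theta j f - u j * theta i f)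

lemma sys_log (m : ℕ) (f G K : MvPolynomial σ F) (hf : f = G * K) (hf0 : f ≠ 0)
    (hdeg : ∀ j, f.degreeOf j < p ^ m) : Sys p m f (fun i => K * theta i G) :=
  ⟨fun i => support_subset_cand p m i f G K hf hf0 hdeg,
   fun i => totalDegree_log_le i f G K hf hf0,
   fun i => proj_log p i f G K hf,
   fun i j => closed_log i j f G K hf⟩

lemma triv_of_irreducible (m : ℕ) (f : MvPolynomial σ F) (hirr : Irreducible f)
    (u : σ → MvPolynomial σ F) (hu : Sys p m f u) : Triv f u := by
  classical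
  have hE : ExpChar F p := ExpChar.prime hp.out
  obtain ⟨-, h2, h3, h4⟩ := hu
  have hprime : Prime f := hirr.prime
  have hf0 := hprime.ne_zero
  obtain ⟨α, hα⟩ := support_nonempty.mpr hf0
  have hα0 := mem_support_iff.mp hα
  have hn : ∀ i, ∃ n : ℤ, f ∣ u i - C (n : F) * theta i f := fun i =>
    exists_int_of_dvd p f (u i) (theta i f) hprime (dvd_of_proj p i f (u i) (h3 i))
  choose n hn using hn
  have hd : ∀ i, ∃ d : F, u i - C (n i : F) * theta i f = C d * f := by
    intro i
    apply eq_C_mul_of_dvd f _ hf0 (hn i)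
    refine (totalDegree_sub _ _).trans (max_le (h2 i) ?_)
    refine (totalDegree_mul _ _).trans ?_
    rw [totalDegree_C, zero_add]
    exact totalDegree_theta_le i f
  choose d hd using hd
  have hu : ∀ i, u i = C (n i : F) * theta i f + C (d i) * f := by
    intro i
    rw [← hd i]; ring
  have hnp : ∀ z : ℤ, ((z : F)) ^ p = (z : F) := by
    intro z
    have := map_intCast (frobenius F p) z
    rwa [frobenius_def] at this
  -- the constants are in the prime field
  have hdint : ∀ i, ∃ e : ℤ, d i = (e : F) := by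
    intro i
    apply exists_int_of_pow_eq p
    have h5 := congrArg (coeff (p • α)) (h3 i)
    rw [coeff_proj, if_pos (by simp), coeff_pow_smul] at h5
    have h6 : f ^ (p - 1) * u i
        = C (n i : F) * (f ^ (p - 1) * theta i f) + C (d i) * f ^ p := by
      obtain ⟨k, hk⟩ : ∃ k, p = k + 1 := ⟨p - 1, by have := hp.out.pos; omega⟩
      have hk' : p - 1 = k := by omega
      have e : f ^ p = f ^ (p - 1) * f := by rw [hk']; conv_lhs => rw [hk, pow_succ]
      rw [hu i, e]; ring
    rw [h6, coeff_add, coeff_C_mul, coeff_C_mul, coeff_pow_mul_theta_char, coeff_pow_smul,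
      hu i, coeff_add, coeff_C_mul, coeff_C_mul, add_pow_expChar, mul_pow, mul_pow, hnp] at h5
    have h7 := add_left_cancel h5
    exact (mul_right_cancel₀ (pow_ne_zero _ hα0) h7).symm
  choose e he using hdint
  have htriv : ∀ i, f ∣ theta i f → theta i f = C ((α i : ℤ) : F) * f := by
    intro i hi
    obtain ⟨c, hc⟩ := eq_C_mul_of_dvd f _ hf0 hi (totalDegree_theta_le i f)
    have h5 := congrArg (coeff α) hc
    rw [coeff_theta, coeff_C_mul] at h5
    have h6 := mul_right_cancel₀ hα0 h5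
    rw [hc, ← h6]
    simp
  have hmod : ∀ (c : ℤ) (i : σ), f ∣ theta i f →
      u i = C (c : F) * theta i f + C (((n i - c) * α i + e i : ℤ) : F) * f := by
    intro c i hi
    rw [hu i, he i, htriv i hi]
    push_cast
    simp only [map_add, map_sub, map_mul]
    ring
  by_cases hI : ∃ i0, ¬ f ∣ theta i0 f
  · obtain ⟨i0, hi0⟩ := hI
    refine ⟨n i0, fun i => if f ∣ theta i f then (n i - n i0) * α i + e i else e i, ?_⟩
    intro i
    by_cases hi : f ∣ theta i f
    · simp only [if_pos hi]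
      exact hmod (n i0) i hi
    · simp only [if_neg hi]
      have hni : (n i : F) = (n i0 : F) := by
        by_contra hne
        have h5 := h4 i i0
        rw [hu i, hu i0] at h5
        have h6 : (C (n i : F) - C (n i0 : F)) *
            (f * theta i0 (theta i f) - theta i f * theta i0 f) = 0 := by
          simp only [theta_add, theta_C_mul] at h5
          rw [theta_comm i i0 f] at h5
          linear_combination h5
        have h7 : (C (n i : F) - C (n i0 : F) : MvPolynomial σ F) ≠ 0 := by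
          rw [← map_sub]
          intro h0
          apply hne
          have := (C_eq_zero).mp h0
          exact sub_eq_zero.mp this
        have h8 := (mul_eq_zero.mp h6).resolve_left h7
        have h9 : f ∣ theta i f * theta i0 f := ⟨_, (sub_eq_zero.mp h8).symm⟩
        rcases hprime.dvd_or_dvd h9 with h10 | h10
        · exact hi h10
        · exact hi0 h10
      rw [hu i, hni, he i]
  · push Not at hI
    refine ⟨0, fun i => (n i - 0) * α i + e i, fun i => ?_⟩
    exact hmod 0 i (hI i)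

lemma irreducible_of_triv [PerfectField F] (m : ℕ) (f : MvPolynomial σ F)
    (hdeg : ∀ i, f.degreeOf i < p ^ m) (hf : 0 < f.totalDegree)
    (hA : ∀ i, X i ∣ f → f.totalDegree = 1)
    (hB : ∀ i, f ∣ (theta i f) ^ 2 → ∃ c : F, theta i f = C c * f)
    (hC : ∀ u, Sys p m f u → Triv f u) : Irreducible f := by
  classical
  by_contra hred
  have hE : ExpChar F p := ExpChar.prime hp.out
  have hf0 : f ≠ 0 := by rintro rfl; simp at hf
  have hfu : ¬ IsUnit f := by
    intro hu
    rw [isUnit_iff_eq_C_of_isReduced] at hu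
    obtain ⟨r, _, rfl⟩ := hu
    simp at hf
  have hX : ∀ i, ¬ X i ∣ f := by
    intro i hi
    have h1 := hA i hi
    obtain ⟨b, hb⟩ := hi
    have hb0 : b ≠ 0 := by rintro rfl; apply hf0; rw [hb, mul_zero]
    rw [hb, totalDegree_mul_of_isDomain (X_ne_zero i) hb0, totalDegree_X] at h1
    have hb1 : b.totalDegree = 0 := by omega
    rw [totalDegree_eq_zero_iff_eq_C] at hb1
    have hbu : IsUnit b := by
      rw [hb1]
      apply IsUnit.map
      rw [isUnit_iff_ne_zero]
      intro h0
      apply hb0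
      rw [hb1, h0, map_zero]
    apply hred
    rw [hb]
    exact (associated_mul_unit_right (X i) b hbu).irreducible X_prime.irreducible
  -- triviality for each factor
  have hT : ∀ G K, f = G * K → ∃ (c : ℤ) (d : σ → ℤ), ∀ i,
      K * theta i G = C (c : F) * theta i f + C (d i : F) * f := fun G K hGK =>
    hC _ (sys_log p m f G K hGK hf0 hdeg)
  obtain ⟨g, hg, hgf⟩ := WfDvdMonoid.exists_irreducible_factor hfu hf0
  have hgp : Prime g := hg.prime
  obtain ⟨e, k, hgk, hfe⟩ := WfDvdMonoid.max_power_factor hf0 hg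
  have he : e ≠ 0 := by
    rintro rfl
    apply hgk
    rw [pow_zero, one_mul] at hfe
    rwa [← hfe]
  obtain ⟨e', rfl⟩ : ∃ e', e = e' + 1 := ⟨e - 1, by omega⟩
  have hk0 : k ≠ 0 := by rintro rfl; apply hf0; rw [hfe, mul_zero]
  have hth : ∀ i, theta i f = ((e' + 1 : ℕ) : MvPolynomial σ F) * g ^ e' * theta i g * k
      + g ^ (e' + 1) * theta i k := by
    intro i
    rw [hfe, theta_mul, theta_pow, Nat.add_sub_cancel]
  have hge : g ^ e' ≠ 0 := pow_ne_zero _ hg.ne_zero
  obtain ⟨i1, hi1⟩ := exists_not_dvd_theta p f g hX hg hgf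
  obtain ⟨c, d, hcd⟩ := hT g (g ^ e' * k) (by rw [hfe]; ring)
  have hkey : ∀ i, (1 - C (c : F) * ((e' + 1 : ℕ) : MvPolynomial σ F)) * (k * theta i g)
      = g * (C (c : F) * theta i k + C (d i : F) * k) := by
    intro i
    apply mul_left_cancel₀ hge
    have h1 := hcd i
    rw [hth i] at h1
    conv at h1 => rhs; rw [hfe]
    linear_combination h1
  have hce : (c : F) * ((e' + 1 : ℕ) : F) = 1 := by
    by_contra hne
    have h1 : (1 - C (c : F) * ((e' + 1 : ℕ) : MvPolynomial σ F))
        = C (1 - (c : F) * ((e' + 1 : ℕ) : F)) := by simp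
    have h2 : (1 - (c : F) * ((e' + 1 : ℕ) : F)) ≠ 0 := fun h0 => hne (sub_eq_zero.mp h0).symm
    have h3 := hkey i1
    have h4 : g ∣ C (1 - (c : F) * ((e' + 1 : ℕ) : F)) * (k * theta i1 g) := by
      rw [← h1, h3]; exact Dvd.intro _ rfl
    have h5 : IsUnit (C (1 - (c : F) * ((e' + 1 : ℕ) : F)) : MvPolynomial σ F) :=
      IsUnit.map _ (isUnit_iff_ne_zero.mpr h2)
    rcases hgp.dvd_or_dvd h4 with h6 | h6
    · exact hg.not_isUnit (isUnit_of_dvd_unit h6 h5)
    · rcases hgp.dvd_or_dvd h6 with h7 | h7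
      · exact hgk h7
      · exact hi1 h7
  have hcne : (c : F) ≠ 0 := by
    intro h0; rw [h0, zero_mul] at hce; exact zero_ne_one hce
  have hene : ((e' + 1 : ℕ) : F) ≠ 0 := by
    intro h0; rw [h0, mul_zero] at hce; exact zero_ne_one hce
  have hkθ : ∀ i, ∃ a : F, theta i k = C a * k := by
    intro i
    have h1 : (1 - C (c : F) * ((e' + 1 : ℕ) : MvPolynomial σ F)) = 0 := by
      have : (1 - C (c : F) * ((e' + 1 : ℕ) : MvPolynomial σ F))
        = C (1 - (c : F) * ((e' + 1 : ℕ) : F)) := by simp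
      rw [this, hce, sub_self, map_zero]
    have h2 := hkey i
    rw [h1, zero_mul] at h2
    have h3 := (mul_eq_zero.mp h2.symm).resolve_left hg.ne_zero
    refine ⟨-((c : F)⁻¹ * (d i : F)), ?_⟩
    have h4 : C ((c : F)⁻¹) * C (c : F) = (1 : MvPolynomial σ F) := by
      rw [← map_mul, inv_mul_cancel₀ hcne, map_one]
    calc theta i k = (C ((c : F)⁻¹) * C (c : F)) * theta i k := by rw [h4, one_mul]
      _ = C ((c : F)⁻¹) * (C (c : F) * theta i k + C (d i : F) * k)
          - C ((c : F)⁻¹) * C (d i : F) * k := by ring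
      _ = _ := by rw [h3, map_neg, map_mul]; ring
  have hkf : k ∣ f := by rw [hfe]; exact Dvd.intro_left _ rfl
  obtain ⟨M, hM⟩ := exists_pow_of_theta p k (fun i hi => hX i (hi.trans hkf)) hkθ
  have hk0' : ∀ i, theta i k = 0 := by
    intro i
    rw [hM, theta_pow]
    have : ((p : ℕ) : MvPolynomial σ F) = 0 := by
      have h1 : ((p : ℕ) : MvPolynomial σ F) = C ((p : ℕ) : F) := by simp
      rw [h1, CharP.cast_eq_zero, map_zero]
    rw [this]; ring
  have hth2 : ∀ i, theta i f = ((e' + 1 : ℕ) : MvPolynomial σ F) * g ^ e' * theta i g * k := by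
    intro i
    rw [hth i, hk0' i, mul_zero, add_zero]
  have hMu : IsUnit M := by
    by_contra hMu
    have hM0 : M ≠ 0 := by
      rintro rfl; apply hk0; rw [hM, zero_pow hp.out.ne_zero]
    obtain ⟨l, hl, hlM⟩ := WfDvdMonoid.exists_irreducible_factor hMu hM0
    have hlk : l ∣ k := by
      rw [hM]; exact hlM.trans (dvd_pow_self M hp.out.ne_zero)
    have hlf : l ∣ f := hlk.trans hkf
    have hlg : ¬ l ∣ g := by
      intro h1
      have h2 := (hl.dvd_irreducible_iff_associated hg).mp h1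
      exact hgk (h2.symm.dvd.trans hlk)
    obtain ⟨K, hK⟩ := hlf
    obtain ⟨c', d', hcd'⟩ := hT l K hK
    obtain ⟨i2, hi2⟩ := exists_not_dvd_theta p f l hX hl (Dvd.intro K hK.symm)
    have h1 := hcd' i2
    have h2 : f * (g * theta i2 l) = f * (l * (C (c' : F) * ((e' + 1 : ℕ) : MvPolynomial σ F)
        * theta i2 g + C (d' i2 : F) * g)) := by
      calc f * (g * theta i2 l) = (g * l) * (K * theta i2 l) := by
            conv_lhs => rw [hK]
            ring
        _ = (g * l) * (C (c' : F) * theta i2 f + C (d' i2 : F) * f) := by rw [h1]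
        _ = (g * l) * (C (c' : F) * (((e' + 1 : ℕ) : MvPolynomial σ F) * g ^ e' * theta i2 g * k)
              + C (d' i2 : F) * f) := by rw [hth2 i2]
        _ = _ := by rw [hfe]; ring
    have h3 := mul_left_cancel₀ hf0 h2
    have h4 : l ∣ g * theta i2 l := by rw [h3]; exact Dvd.intro _ rfl
    rcases hl.prime.dvd_or_dvd h4 with h5 | h5
    · exact hlg h5
    · exact hi2 h5
  have hku : IsUnit k := by rw [hM]; exact hMu.pow p
  have he2 : e' ≠ 0 := by
    rintro rfl
    apply hred
    rw [hfe, zero_add, pow_one]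
    exact (associated_mul_unit_right g k hku).irreducible hg
  obtain ⟨e'', rfl⟩ : ∃ e'', e' = e'' + 1 := ⟨e' - 1, by omega⟩
  have hdv : f ∣ (theta i1 f) ^ 2 := by
    refine ⟨((e'' + 1 + 1 : ℕ) : MvPolynomial σ F) ^ 2 * g ^ e'' * (theta i1 g) ^ 2 * k, ?_⟩
    rw [hth2 i1]
    conv_rhs => rw [hfe]
    ring
  obtain ⟨a, ha⟩ := hB i1 hdv
  rw [hth2 i1] at ha
  conv at ha => rhs; rw [hfe]
  have h5 : (g ^ (e'' + 1) * k) * (((e'' + 1 + 1 : ℕ) : MvPolynomial σ F) * theta i1 g)
      = (g ^ (e'' + 1) * k) * (C a * g) := by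
    linear_combination ha
  have h6 := mul_left_cancel₀ (mul_ne_zero hge hk0) h5
  have h7 : g ∣ ((e'' + 1 + 1 : ℕ) : MvPolynomial σ F) * theta i1 g := by
    rw [h6]; exact Dvd.intro_left _ rfl
  rcases hgp.dvd_or_dvd h7 with h8 | h8
  · apply hg.not_isUnit
    apply isUnit_of_dvd_unit h8
    have : ((e'' + 1 + 1 : ℕ) : MvPolynomial σ F) = C ((e'' + 1 + 1 : ℕ) : F) := by simp
    rw [this]
    exact IsUnit.map _ (isUnit_iff_ne_zero.mpr hene)
  · exact hi1 h8

theorem irreducible_iff_linear [PerfectField F] (m : ℕ) (f : MvPolynomial σ F)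
    (hdeg : ∀ i, f.degreeOf i < p ^ m) (hf : 0 < f.totalDegree) :
    Irreducible f ↔
      (∀ i, X i ∣ f → f.totalDegree = 1) ∧
      (∀ i, f ∣ (theta i f) ^ 2 → ∃ c : F, theta i f = C c * f) ∧
      (∀ u, Sys p m f u → Triv f u) := by
  constructor
  · intro hirr
    refine ⟨?_, ?_, fun u hu => triv_of_irreducible p m f hirr u hu⟩
    · rintro i ⟨b, hb⟩
      have hbu : IsUnit b := (hirr.isUnit_or_isUnit hb).resolve_left X_prime.not_isUnit
      rw [isUnit_iff_eq_C_of_isReduced] at hbu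
      obtain ⟨r, hr, rfl⟩ := hbu
      rw [hb, totalDegree_mul_of_isDomain (X_ne_zero i)
        (by rw [Ne, C_eq_zero]; exact hr.ne_zero), totalDegree_X, totalDegree_C]
    · intro i hi
      exact eq_C_mul_of_dvd f _ hirr.ne_zero (hirr.prime.dvd_of_dvd_pow hi)
        (totalDegree_theta_le i f)
  · rintro ⟨hA, hB, hC⟩
    exact irreducible_of_triv p m f hdeg hf hA hB hC

end Pool.Agent.SparseIrr
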