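import Pool.Agent.SparseIrr.Main

namespace Pool.Agent.SparseIrr

open MvPolynomial

section gen

variable {σ : Type*} {R : Type*} [CommRing R]

/-- the key coefficient identity over any commutative ring, general form -/
lemma coeff_pow_mul_theta_of_eq (i : σ) (g : MvPolynomial σ R) (n : ℕ) (hn : 0 < n)
    (β : σ →₀ ℕ) (b : ℕ) (hb : β i = n * b) :
    coeff β (g ^ (n - 1) * theta i g) = (b : R) * coeff β (g ^ n) := by
  let φ : MvPolynomial R ℤ →+* R := eval₂Hom (Int.castRingHom R) id
  have hφ : Function.Surjective φ := fun r => ⟨X r, by simp [φ]⟩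
  obtain ⟨G, rfl⟩ := map_surjective φ hφ g
  rw [theta_map, ← map_pow, ← map_mul, ← map_pow, coeff_map, coeff_map]
  have key : coeff β (G ^ (n - 1) * theta i G)
      = (b : MvPolynomial R ℤ) * coeff β (G ^ n) := by
    have h1 : coeff β (theta i (G ^ n))
        = (β i : MvPolynomial R ℤ) * coeff β (G ^ n) := coeff_theta i _ _
    rw [theta_pow] at h1
    have h2 : coeff β ((n : MvPolynomial σ (MvPolynomial R ℤ)) * G ^ (n - 1) * theta i G)
        = (n : MvPolynomial R ℤ) * coeff β (G ^ (n - 1) * theta i G) := by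
      have : ((n : MvPolynomial σ (MvPolynomial R ℤ)) * G ^ (n - 1) * theta i G)
        = C (n : MvPolynomial R ℤ) * (G ^ (n - 1) * theta i G) := by
        rw [mul_assoc]; congr 1
      rw [this, coeff_C_mul]
    rw [h2] at h1
    have hn' : (n : MvPolynomial R ℤ) ≠ 0 := by exact_mod_cast hn.ne'
    apply mul_left_cancel₀ hn'
    rw [h1, hb, Nat.cast_mul, mul_assoc]
  rw [key, map_mul, map_natCast]

lemma theta_comm (i j : σ) (g : MvPolynomial σ R) :
    theta i (theta j g) = theta j (theta i g) := by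
  ext β
  rw [coeff_theta, coeff_theta, coeff_theta, coeff_theta]
  ring

lemma theta_sub (i : σ) (g h : MvPolynomial σ R) :
    theta i (g - h) = theta i g - theta i h := by
  unfold theta
  rw [map_sub]; ring

/-- the projection on the monomials whose `i`-th exponent is divisible by `p` -/
noncomputable def proj (p : ℕ) (i : σ) (h : MvPolynomial σ R) : MvPolynomial σ R :=
  ∑ β ∈ h.support with p ∣ β i, monomial β (coeff β h)

lemma coeff_proj (p : ℕ) (i : σ) (h : MvPolynomial σ R) (β : σ →₀ ℕ) :
    coeff β (proj p i h) = if p ∣ β i then coeff β h else 0 := by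
  classical
  unfold proj
  rw [coeff_sum]
  simp only [coeff_monomial]
  rw [Finset.sum_ite_eq' (Finset.filter (fun β => p ∣ β i) h.support) β (fun β => coeff β h)]
  simp only [Finset.mem_filter, mem_support_iff]
  by_cases h1 : p ∣ β i
  · by_cases h2 : coeff β h = 0
    · simp [h2]
    · simp [h1, h2]
  · simp [h1]

end gen

variable {σ : Type*} {F : Type*} [Field F] (p : ℕ) [hp : Fact p.Prime] [CharP F p]

lemma coeff_pow_char_eq_zero (g : MvPolynomial σ F) (β : σ →₀ ℕ) (j : σ) (hj : ¬ p ∣ β j) :
    coeff β (g ^ p) = 0 := by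
  have : ExpChar F p := ExpChar.prime hp.out
  rw [← map_frobenius_expand p, coeff_map, coeff_expand_of_not_dvd g hj, map_zero]

omit hp [CharP F p] in
lemma exists_smul_eq (β : σ →₀ ℕ) (h : ∀ j, p ∣ β j) : ∃ α, β = p • α := by
  refine ⟨β.mapRange (· / p) (Nat.zero_div p), ?_⟩
  ext j
  simp only [Finsupp.smul_apply, Finsupp.mapRange_apply, smul_eq_mul]
  exact (Nat.mul_div_cancel' (h j)).symm

lemma proj_pow_mul_theta (i : σ) (g : MvPolynomial σ F) :
    proj p i (g ^ (p - 1) * theta i g) = (theta i g) ^ p := by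
  ext β
  rw [coeff_proj]
  split_ifs with h
  · obtain ⟨b, hb⟩ := h
    by_cases hall : ∀ j, p ∣ β j
    · obtain ⟨α, rfl⟩ := exists_smul_eq p β hall
      rw [coeff_pow_mul_theta_char, coeff_pow_smul]
    · push Not at hall
      obtain ⟨j, hj⟩ := hall
      rw [coeff_pow_mul_theta_of_eq i g p hp.out.pos β b hb, coeff_pow_char_eq_zero p g β j hj,
        mul_zero, coeff_pow_char_eq_zero p _ β j hj]
  · rw [coeff_pow_char_eq_zero p _ β i h]

omit hp [CharP F p] in
lemma proj_add (i : σ) (g h : MvPolynomial σ F) :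
    proj p i (g + h) = proj p i g + proj p i h := by
  ext β
  rw [coeff_add, coeff_proj, coeff_proj, coeff_proj]
  split_ifs
  · rw [coeff_add]
  · rw [add_zero]

lemma proj_pow_mul (i : σ) (K h : MvPolynomial σ F) :
    proj p i (K ^ p * h) = K ^ p * proj p i h := by
  classical
  have : ExpChar F p := ExpChar.prime hp.out
  induction K using MvPolynomial.induction_on' with
  | add K L hK hL =>
    rw [add_pow_expChar, add_mul, proj_add, hK, hL, add_mul]
  | monomial γ c =>
    ext β
    rw [coeff_proj, monomial_pow, coeff_monomial_mul', coeff_monomial_mul', coeff_proj]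
    by_cases hle : p • γ ≤ β
    · simp only [if_pos hle]
      have e : p ∣ (β - p • γ) i ↔ p ∣ β i := by
        have h1 := hle i
        simp only [Finsupp.smul_apply, smul_eq_mul] at h1
        simp only [Finsupp.coe_tsub, Pi.sub_apply, Finsupp.smul_apply, smul_eq_mul]
        exact (Nat.dvd_sub_iff_left h1 (Dvd.intro _ rfl))
      simp only [e]
      split_ifs
      · rfl
      · rw [mul_zero]
    · simp only [if_neg hle]
      simp

/-- the Niederreiter type identity -/
lemma proj_log (i : σ) (f G K : MvPolynomial σ F) (hf : f = G * K) :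
    proj p i (f ^ (p - 1) * (K * theta i G)) = (K * theta i G) ^ p := by
  have e1 : f ^ (p - 1) * (K * theta i G) = K ^ p * (G ^ (p - 1) * theta i G) := by
    obtain ⟨k, hk⟩ : ∃ k, p = k + 1 := ⟨p - 1, by have := hp.out.pos; omega⟩
    rw [hf]
    have : p - 1 = k := by omega
    rw [this, mul_pow]
    conv_rhs => rw [hk, pow_succ]
    ring
  rw [e1, proj_pow_mul, proj_pow_mul_theta, mul_pow]

omit hp [CharP F p] in
lemma closed_log (i j : σ) (f G K : MvPolynomial σ F) (hf : f = G * K) :
    f * (theta j (K * theta i G) - theta i (K * theta j G))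
      = (K * theta i G) * theta j f - (K * theta j G) * theta i f := by
  rw [hf]
  simp only [theta_mul]
  rw [theta_comm i j G]
  ring

/-! ### soundness -/

omit hp [CharP F p] in
lemma iterate_theta_pow_mul (i : σ) (f u : MvPolynomial σ F) (n k : ℕ) (hk : k ≤ n) :
    ∃ r, (theta i)^[k] (f ^ n * u) =
      (n.descFactorial k : MvPolynomial σ F) * f ^ (n - k) * (theta i f) ^ k * u
        + f ^ (n - k + 1) * r := by
  induction k with
  | zero => exact ⟨0, by simp⟩
  | succ k ih =>
    obtain ⟨r, hr⟩ := ih (by omega)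
    rw [Function.iterate_succ_apply', hr]
    obtain ⟨t, ht⟩ : ∃ t, n = k + 1 + t := ⟨n - (k + 1), by omega⟩
    have h1 : n - k = t + 1 := by omega
    have h2 : n - (k + 1) = t := by omega
    have h3 : n.descFactorial (k + 1) = (t + 1) * n.descFactorial k := by
      rw [Nat.descFactorial_succ, h1]
    rw [h1, h2, h3]
    have e : ∀ x y : MvPolynomial σ F, theta i (x + y) = theta i x + theta i y := theta_add i
    have hc : theta i ((n.descFactorial k : ℕ) : MvPolynomial σ F) = 0 := by
      have : ((n.descFactorial k : ℕ) : MvPolynomial σ F) = C ((n.descFactorial k : ℕ) : F) * 1 := by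
        simp
      rw [this, theta_C_mul]
      unfold theta
      simp
    refine ⟨(n.descFactorial k : MvPolynomial σ F) * theta i ((theta i f) ^ k * u)
      + ((t + 1 + 1 : ℕ) : MvPolynomial σ F) * theta i f * r + f * theta i r, ?_⟩
    have e3 : theta i ((n.descFactorial k : MvPolynomial σ F) * f ^ (t + 1) * theta i f ^ k * u)
        = (n.descFactorial k : MvPolynomial σ F) * (((t + 1 : ℕ) : MvPolynomial σ F) * f ^ t
          * theta i f * (theta i f ^ k * u) + f ^ (t + 1) * theta i (theta i f ^ k * u)) := by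
      have : (n.descFactorial k : MvPolynomial σ F) * f ^ (t + 1) * theta i f ^ k * u
        = (n.descFactorial k : MvPolynomial σ F) * (f ^ (t + 1) * (theta i f ^ k * u)) := by ring
      rw [this, theta_mul, hc, zero_mul, zero_add, theta_mul, theta_pow, Nat.add_sub_cancel]
    have e4 : theta i (f ^ (t + 1 + 1) * r) = ((t + 1 + 1 : ℕ) : MvPolynomial σ F) * f ^ (t + 1)
        * theta i f * r + f ^ (t + 1 + 1) * theta i r := by
      rw [theta_mul, theta_pow, Nat.add_sub_cancel]
    rw [e, e3, e4]
    push_cast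
    ring

omit hp [CharP F p] in
lemma coeff_iterate_theta (i : σ) (h : MvPolynomial σ F) (k : ℕ) (β : σ →₀ ℕ) :
    coeff β ((theta i)^[k] h) = (β i : F) ^ k * coeff β h := by
  induction k with
  | zero => simp
  | succ k ih => rw [Function.iterate_succ_apply', coeff_theta, ih]; ring

lemma proj_eq_sub (i : σ) (h : MvPolynomial σ F) :
    proj p i h = h - (theta i)^[p - 1] h := by
  ext β
  rw [coeff_proj, coeff_sub, coeff_iterate_theta]
  have hp1 : p - 1 ≠ 0 := by have := hp.out.two_le; omega
  split_ifs with hd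
  · rw [(CharP.cast_eq_zero_iff F p (β i)).mpr hd, zero_pow hp1, zero_mul, sub_zero]
  · have h1 : (β i : F) ≠ 0 := fun h0 => hd ((CharP.cast_eq_zero_iff F p (β i)).mp h0)
    have h2 : (β i : F) ^ (p - 1) = 1 := by
      have h3 := natCast_pow_char (R := F) p (β i)
      obtain ⟨k, hk⟩ : ∃ k, p = k + 1 := ⟨p - 1, by have := hp.out.pos; omega⟩
      have h4 : p - 1 = k := by omega
      rw [h4]
      rw [hk, pow_succ] at h3
      exact mul_right_cancel₀ h1 (by rw [h3, one_mul])
    rw [h2, one_mul, sub_self]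

lemma dvd_of_proj (i : σ) (f u : MvPolynomial σ F)
    (h : proj p i (f ^ (p - 1) * u) = u ^ p) :
    f ∣ u ^ p - (theta i f) ^ (p - 1) * u := by
  obtain ⟨r, hr⟩ := iterate_theta_pow_mul i f u (p - 1) (p - 1) le_rfl
  rw [proj_eq_sub, hr, Nat.descFactorial_self, Nat.sub_self, pow_zero, zero_add, pow_one] at h
  have hw : (((p - 1).factorial : ℕ) : MvPolynomial σ F) = -1 := by
    have h1 := ZMod.wilsons_lemma p
    have h2 := congrArg (ZMod.castHom (dvd_refl p) F) h1
    rw [map_natCast, map_neg, map_one] at h2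
    have h3 := congrArg (C : F →+* MvPolynomial σ F) h2
    simpa using h3
  rw [hw] at h
  obtain ⟨k, hk⟩ : ∃ k, p - 1 = k + 1 := ⟨p - 2, by have := hp.out.two_le; omega⟩
  refine ⟨f ^ k * u - r, ?_⟩
  rw [← h, hk, pow_succ]
  ring

lemma exists_int_of_pow_eq {K : Type*} [Field K] [CharP K p] (x : K) (h : x ^ p = x) :
    ∃ n : ℤ, x = (n : K) := by
  have h1 := (Subfield.mem_bot_iff_pow_eq_self K p).mpr h
  obtain ⟨n, hn⟩ := (mem_bot_iff_intCast p K).mp h1
  exact ⟨n, hn.symm⟩

lemma exists_int_of_dvd (f u v : MvPolynomial σ F) (hf : Prime f)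
    (h : f ∣ u ^ p - v ^ (p - 1) * u) : ∃ n : ℤ, f ∣ u - C (n : F) * v := by
  by_cases hv : f ∣ v
  · refine ⟨0, ?_⟩
    have hp1 : p - 1 ≠ 0 := by have := hp.out.two_le; omega
    have h1 : f ∣ v ^ (p - 1) * u := (hv.trans (dvd_pow_self v hp1)).trans (Dvd.intro _ rfl)
    have h2 : f ∣ u ^ p := by
      have := dvd_add h h1
      rwa [sub_add_cancel] at this
    have h3 := hf.dvd_of_dvd_pow h2
    simpa using h3
  · let I : Ideal (MvPolynomial σ F) := Ideal.span {f}
    have hI : I.IsPrime := (Ideal.span_singleton_prime hf.ne_zero).mpr hf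
    let A := MvPolynomial σ F ⧸ I
    let K := FractionRing A
    have hmem : ∀ x : MvPolynomial σ F, algebraMap A K (Ideal.Quotient.mk I x) = 0 ↔ f ∣ x := by
      intro x
      rw [IsFractionRing.to_map_eq_zero_iff, Ideal.Quotient.eq_zero_iff_mem,
        Ideal.mem_span_singleton]
    let ψ : MvPolynomial σ F →+* K := (algebraMap A K).comp (Ideal.Quotient.mk I)
    have hψ : ∀ x, ψ x = 0 ↔ f ∣ x := hmem
    have hchar : CharP K p := by
      have : CharP F p := inferInstance
      exact charP_of_injective_ringHom (f := ψ.comp C) (RingHom.injective _) p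
    have hv0 : ψ v ≠ 0 := fun h0 => hv ((hψ v).mp h0)
    have h1 : (ψ u) ^ p = (ψ v) ^ (p - 1) * ψ u := by
      have := (hψ _).mpr h
      rw [map_sub, map_pow, map_mul, map_pow, sub_eq_zero] at this
      exact this
    obtain ⟨k, hk⟩ : ∃ k, p = k + 1 := ⟨p - 1, by have := hp.out.pos; omega⟩
    have h4 : p - 1 = k := by omega
    have h2 : (ψ u / ψ v) ^ p = ψ u / ψ v := by
      have e : (ψ v) ^ p = (ψ v) ^ (p - 1) * ψ v := by
        rw [h4]; conv_lhs => rw [hk, pow_succ]
      rw [div_pow, h1, e, mul_div_mul_left _ _ (pow_ne_zero _ hv0)]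
    obtain ⟨n, hn⟩ := exists_int_of_pow_eq p _ h2
    refine ⟨n, ?_⟩
    rw [← hψ, map_sub, map_mul, sub_eq_zero]
    rw [div_eq_iff hv0] at hn
    rw [hn]
    congr 1
    have : (C (n : F) : MvPolynomial σ F) = (n : MvPolynomial σ F) := by simp
    rw [this, map_intCast]

end Pool.Agent.SparseIrr
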