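import Pool.Agent.SparseIrr.Cyclic

namespace Pool.Agent.SparseIrr

open MvPolynomial

variable {σ : Type*} [Fintype σ] [DecidableEq σ] [Nonempty σ] {F : Type*} [Field F] (p : ℕ)
  [hp : Fact p.Prime] [CharP F p]

omit [DecidableEq σ] in
lemma totalDegree_T_pow (v : ℕ) : ((T σ F) ^ v).totalDegree = v := by
  induction v with
  | zero => simp
  | succ v ih =>
    rw [pow_succ, totalDegree_mul_of_isDomain (pow_ne_zero _ T_ne_zero) T_ne_zero, ih,
      totalDegree_T]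

omit [DecidableEq σ] hp [CharP F p] in
lemma class_order (q e : ℕ) (he : e * (p + 1) = q + 1)
    (A : Polynomial (MvPolynomial σ F))
    (hdeg : ∀ k, A.coeff k ≠ 0 → (A.coeff k).totalDegree + k ≤ q + 1)
    (h0 : A.coeff 0 ≠ 0 → ¬ (T σ F) ^ (q + 1) ∣ A.coeff 0)
    (w : ℕ) (κ : ZMod (p + 1))
    (h1 : (T σ F) ^ w ∣ (Phi (p + 1) ((T σ F) ^ e) A).coeff κ)
    (h2 : ¬ (T σ F) ^ (w + 1) ∣ (Phi (p + 1) ((T σ F) ^ e) A).coeff κ) :
    ∃ k v : ℕ, (k : ZMod (p + 1)) = κ ∧ A.coeff k ≠ 0 ∧ (T σ F) ^ v ∣ A.coeff k ∧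
      ¬ (T σ F) ^ (v + 1) ∣ A.coeff k ∧ v + e * k = w ∧ v + k ≤ q + 1 := by
  classical
  rw [Phi_coeff, ← Finset.sum_filter] at h1 h2
  set S := A.support.filter (fun k : ℕ => (k : ZMod (p + 1)) = κ) with hS
  have hSne : S.Nonempty := by
    by_contra hcon
    rw [Finset.not_nonempty_iff_eq_empty] at hcon
    rw [hcon, Finset.sum_empty] at h2
    exact h2 (dvd_zero _)
  set k := S.min' hSne with hk
  have hkS : k ∈ S := S.min'_mem hSne
  have hkm := Finset.mem_filter.mp hkS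
  have hAk : A.coeff k ≠ 0 := Polynomial.mem_support_iff.mp hkm.1
  have hfin : FiniteMultiplicity (T σ F) (A.coeff k) :=
    FiniteMultiplicity.of_not_isUnit prime_T.not_isUnit hAk
  obtain ⟨v, hv1, hv2⟩ : ∃ v, (T σ F) ^ v ∣ A.coeff k ∧ ¬ (T σ F) ^ (v + 1) ∣ A.coeff k :=
    ⟨multiplicity (T σ F) (A.coeff k), pow_multiplicity_dvd _ _,
      hfin.not_pow_dvd_of_multiplicity_lt (Nat.lt_succ_self _)⟩
  have hvd : v ≤ (A.coeff k).totalDegree := by
    have := totalDegree_le_of_dvd_of_isDomain hv1 hAk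
    rwa [totalDegree_T_pow] at this
  have hvk := hdeg k hAk
  have hvq : v < q + 1 := by
    by_contra hcon
    have hk0 : k = 0 := by omega
    have hveq : v = q + 1 := by omega
    rw [hk0] at hAk hv1
    rw [hveq] at hv1
    exact h0 hAk hv1
  refine ⟨k, v, hkm.2, hAk, hv1, hv2, ?_, by omega⟩
  rw [← Finset.add_sum_erase _ _ hkS] at h1 h2
  have hrest : (T σ F) ^ (v + e * k + 1) ∣ ∑ x ∈ S.erase k, A.coeff x * ((T σ F) ^ e) ^ x := by
    apply Finset.dvd_sum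
    intro x hx
    rw [Finset.mem_erase] at hx
    have hxS := Finset.mem_filter.mp hx.2
    have hlt : k < x := lt_of_le_of_ne (S.min'_le x hx.2) (Ne.symm hx.1)
    have hmod : (k : ZMod (p + 1)) = (x : ZMod (p + 1)) := by rw [hkm.2, hxS.2]
    have hmod2 := (ZMod.natCast_eq_natCast_iff k x (p + 1)).mp hmod
    have hdvd := (Nat.modEq_iff_dvd' (le_of_lt hlt)).mp hmod2
    have hle : p + 1 ≤ x - k := Nat.le_of_dvd (by omega) hdvd
    have hex : e * k + (q + 1) ≤ e * x := by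
      have : e * (k + (p + 1)) ≤ e * x := Nat.mul_le_mul_left e (by omega)
      rw [mul_add, he] at this
      exact this
    apply Dvd.dvd.mul_left
    rw [← pow_mul]
    exact pow_dvd_pow _ (by omega)
  have hx1 : (T σ F) ^ (v + e * k) ∣ A.coeff k * ((T σ F) ^ e) ^ k := by
    rw [← pow_mul, pow_add]
    exact mul_dvd_mul_right hv1 _
  have hx2 : ¬ (T σ F) ^ (v + e * k + 1) ∣ A.coeff k * ((T σ F) ^ e) ^ k := by
    rw [← pow_mul, (by ring : v + e * k + 1 = (v + 1) + e * k), pow_add]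
    intro h
    exact hv2 ((mul_dvd_mul_iff_right (pow_ne_zero _ T_ne_zero)).mp h)
  have hy1 : (T σ F) ^ (v + e * k) ∣ A.coeff k * ((T σ F) ^ e) ^ k
      + ∑ x ∈ S.erase k, A.coeff x * ((T σ F) ^ e) ^ x :=
    dvd_add hx1 ((pow_dvd_pow _ (Nat.le_succ _)).trans hrest)
  have hy2 : ¬ (T σ F) ^ (v + e * k + 1) ∣ A.coeff k * ((T σ F) ^ e) ^ k
      + ∑ x ∈ S.erase k, A.coeff x * ((T σ F) ^ e) ^ x := by
    intro h
    exact hx2 ((dvd_add_left hrest).mp h)
  apply le_antisymm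
  · by_contra hcon
    exact h2 ((pow_dvd_pow _ (by omega)).trans hy1)
  · by_contra hcon
    exact hy2 ((pow_dvd_pow _ (by omega)).trans h1)

lemma lower_coeff (r e : ℕ) (he : e * (p + 1) = p ^ (2 * r + 1) + 1)
    (A B : Polynomial (MvPolynomial σ F))
    (hdeg : ∀ k, A.coeff k ≠ 0 → (A.coeff k).totalDegree + k ≤ p ^ (2 * r + 1) + 1)
    (h0 : A.coeff 0 ≠ 0 → ¬ (T σ F) ^ (p ^ (2 * r + 1) + 1) ∣ A.coeff 0)
    (hAB : (Polynomial.X ^ (p + 1) - Polynomial.C ((T σ F) ^ (p ^ (2 * r + 1) + 1))) ∣ A * B)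
    (hA : ¬ (Polynomial.X ^ (p + 1) - Polynomial.C ((T σ F) ^ (p ^ (2 * r + 1) + 1))) ∣ A)
    (hB : ¬ (Polynomial.X ^ (p + 1) - Polynomial.C ((T σ F) ^ (p ^ (2 * r + 1) + 1))) ∣ B) :
    ∃ k k' a b : ℕ, r ≤ a + b ∧ Fintype.card σ ^ a ≤ (A.coeff k).support.card ∧
      Fintype.card σ ^ b ≤ (A.coeff k').support.card := by
  classical
  have hE : (T σ F) ^ e ≠ 0 := pow_ne_zero _ T_ne_zero
  have hEN : ((T σ F) ^ e) ^ (p + 1) = (T σ F) ^ (p ^ (2 * r + 1) + 1) := by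
    rw [← pow_mul, he]
  rw [← hEN] at hAB hA hB
  obtain ⟨w, κ, κ', hκ, ⟨h1, h2⟩, ⟨h1', h2'⟩⟩ :=
    Phi_two_min (t := T σ F) prime_T (p + 1) ((T σ F) ^ e) hE A B hAB hA hB
  obtain ⟨k, v, hk1, hk2, hv1, hv2, hvw, hvk⟩ := class_order p _ e he A hdeg h0 w κ h1 h2
  obtain ⟨k', v', hk1', hk2', hv1', hv2', hvw', hvk'⟩ :=
    class_order p _ e he A hdeg h0 w κ' h1' h2'
  have g1 := card_support_ge_of_order p v (A.coeff k) hv1 hv2
  have g2 := card_support_ge_of_order p v' (A.coeff k') hv1' hv2'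
  refine ⟨k, k', wt p v, wt p v', ?_, g1, g2⟩
  have hp1 : 1 < p := hp.out.one_lt
  have hkk : ∀ x y : ℕ, x = y + (p + 1) → (x : ZMod (p + 1)) = y := by
    intro x y hxy
    rw [hxy, Nat.cast_add, ZMod.natCast_self, add_zero]
  -- the argument for `j < j'`
  have main : ∀ (j j' u u' : ℕ), j < j' → (j : ZMod (p + 1)) ≠ j' → u + e * j = u' + e * j' →
      u + j ≤ p ^ (2 * r + 1) + 1 → r ≤ wt p u + wt p u' := by
    intro j j' u u' hjj hne heq hu
    have hsub : u = u' + e * (j' - j) := by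
      obtain ⟨d, rfl⟩ : ∃ d, j' = j + d := ⟨j' - j, by omega⟩
      rw [Nat.add_sub_cancel_left]
      rw [mul_add] at heq
      omega
    have hepos : 0 < e := by
      rcases Nat.eq_zero_or_pos e with h | h
      · rw [h, zero_mul] at he; omega
      · exact h
    have hle : j' - j ≤ p + 1 := by
      by_contra hcon
      have h5 : e * (p + 1 + 1) ≤ e * (j' - j) := Nat.mul_le_mul_left e (by omega)
      rw [mul_add, he] at h5
      omega
    have hne2 : j' - j ≠ p + 1 := by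
      intro h6
      apply hne
      exact (hkk j' j (by omega)).symm
    apply digits_lower p hp1 r u u' 0 (j' - j) ((e * (j' - j) : ℕ) : ℤ) (by omega) (by omega)
      (by omega)
    · have h7 : ((e * (p + 1) : ℕ) : ℤ) = ((p ^ (2 * r + 1) + 1 : ℕ) : ℤ) := by rw [he]
      push_cast at h7
      rw [← h7, Nat.cast_mul]
      ring
    · rw [hsub]; push_cast; ring
  have hκ' : (k : ZMod (p + 1)) ≠ k' := by rw [hk1, hk1']; exact hκ
  rcases lt_trichotomy k k' with h | h | h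
  · exact main k k' v v' h hκ' (by omega) hvk
  · exact absurd (by rw [h]) hκ'
  · rw [add_comm]
    exact main k' k v' v h (Ne.symm hκ') (by omega) hvk'

end Pool.Agent.SparseIrr
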