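import Pool.Agent.SparseIrr.Barrier

namespace Pool.Agent.SparseIrr

open MvPolynomial

variable {F : Type*} [Field F] (p : ℕ) [hp : Fact p.Prime] [CharP F p] {n : ℕ}

lemma card_support_coeff (a : MvPolynomial (Fin (n + 1)) F) (k : ℕ) :
    ((finSuccEquiv F n a).coeff k).support.card = (a.support.filter (fun m => m 0 = k)).card := by
  classical
  rw [← image_support_finSuccEquiv, Finset.card_image_of_injective _ (Finsupp.cons_right_injective k)]

lemma card_support_coeff_le (a : MvPolynomial (Fin (n + 1)) F) (k : ℕ) :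
    ((finSuccEquiv F n a).coeff k).support.card ≤ a.support.card := by
  rw [card_support_coeff]
  exact Finset.card_le_card (Finset.filter_subset _ _)

lemma card_support_coeff_add_le (a : MvPolynomial (Fin (n + 1)) F) (k l : ℕ) (h : k ≠ l) :
    ((finSuccEquiv F n a).coeff k).support.card + ((finSuccEquiv F n a).coeff l).support.card
      ≤ a.support.card := by
  classical
  rw [card_support_coeff, card_support_coeff, ← Finset.card_union_of_disjoint]
  · apply Finset.card_le_card
    intro x hx
    rw [Finset.mem_union, Finset.mem_filter, Finset.mem_filter] at hx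
    rcases hx with hx | hx <;> exact hx.1
  · rw [Finset.disjoint_filter]
    intro x _ h1 h2
    exact h (h1.symm.trans h2)

/-- the example polynomial `(x_1 + ... + x_n) ^ d - z ^ e`, with `z` the variable `0` -/
noncomputable def ex (n : ℕ) (F : Type*) [Field F] (d e : ℕ) : MvPolynomial (Fin (n + 1)) F :=
  (∑ i : Fin n, X i.succ) ^ d - X 0 ^ e

lemma finSucc_ex (d e : ℕ) : finSuccEquiv F n (ex n F d e)
    = - (Polynomial.X ^ e - Polynomial.C ((T (Fin n) F) ^ d)) := by
  unfold ex T
  rw [map_sub, map_pow, map_pow, map_sum]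
  simp only [finSuccEquiv_X_succ, finSuccEquiv_X_zero]
  rw [← map_sum, ← map_pow]
  ring

lemma lower_bound (hn : 0 < n) (M : ℕ) (a b : MvPolynomial (Fin (n + 1)) F)
    (hab : ex n F (p ^ (4 * M + 1) + 1) (p + 1) ∣ a * b)
    (ha : ¬ ex n F (p ^ (4 * M + 1) + 1) (p + 1) ∣ a)
    (hb : ¬ ex n F (p ^ (4 * M + 1) + 1) (p + 1) ∣ b)
    (hdeg : a.totalDegree ≤ p ^ (4 * M + 1) + 1) :
    n ^ M ≤ a.support.card := by
  classical
  have hne : Nonempty (Fin n) := ⟨⟨0, hn⟩⟩
  have hr : 2 * (2 * M) + 1 = 4 * M + 1 := by ring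
  set q := p ^ (4 * M + 1) with hq
  have hpq : p ≤ q := by
    rw [hq]; exact Nat.le_self_pow (by omega) p
  obtain ⟨e, he⟩ : ∃ e, e * (p + 1) = q + 1 := by
    have h1 : Odd (4 * M + 1) := ⟨2 * M, by ring⟩
    have h2 := h1.nat_add_dvd_pow_add_pow p 1
    rw [one_pow, ← hq] at h2
    obtain ⟨e, he⟩ := h2
    exact ⟨e, by rw [he]; ring⟩
  set Z : Polynomial (MvPolynomial (Fin n) F) :=
    Polynomial.X ^ (p + 1) - Polynomial.C ((T (Fin n) F) ^ (q + 1)) with hZ
  have hex : finSuccEquiv F n (ex n F (q + 1) (p + 1)) = - Z := finSucc_ex _ _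
  have hdvd : ∀ x : MvPolynomial (Fin (n + 1)) F,
      ex n F (q + 1) (p + 1) ∣ x ↔ Z ∣ finSuccEquiv F n x := by
    intro x
    rw [← map_dvd_iff (finSuccEquiv F n), hex]
    exact ⟨fun ⟨y, hy⟩ => ⟨-y, by rw [hy]; ring⟩, fun ⟨y, hy⟩ => ⟨-y, by rw [hy]; ring⟩⟩
  rw [hdvd] at hab ha hb
  rw [map_mul] at hab
  set A := finSuccEquiv F n a with hA
  set B := finSuccEquiv F n b with hB
  have hdegA : ∀ k, A.coeff k ≠ 0 → (A.coeff k).totalDegree + k ≤ q + 1 := by
    intro k hk
    exact (totalDegree_coeff_finSuccEquiv_add_le a k hk).trans hdeg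
  -- conclusion from a pair of exponents
  have hfin : ∀ (x y : ℕ) (s t : ℕ), 2 * M ≤ s + t → n ^ s ≤ x → n ^ t ≤ y →
      n ^ M ≤ x ∨ n ^ M ≤ y := by
    intro x y s t h1 h2 h3
    rcases (by omega : M ≤ s ∨ M ≤ t) with h | h
    · left; exact (Nat.pow_le_pow_right hn h).trans h2
    · right; exact (Nat.pow_le_pow_right hn h).trans h3
  by_cases hcase : A.coeff 0 ≠ 0 → ¬ (T (Fin n) F) ^ (q + 1) ∣ A.coeff 0
  · obtain ⟨k, k', s, t, h1, h2, h3⟩ := lower_coeff (σ := Fin n) (F := F) p (2 * M) e
      (by rw [hr]; exact he) A B (by rw [hr]; exact hdegA) (by rw [hr]; exact hcase)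
      (by rw [hr]; exact hab) (by rw [hr]; exact ha) (by rw [hr]; exact hb)
    rw [Fintype.card_fin] at h2 h3
    rcases hfin _ _ _ _ h1 h2 h3 with h | h
    · exact h.trans (card_support_coeff_le a k)
    · exact h.trans (card_support_coeff_le a k')
  · push Not at hcase
    obtain ⟨hA0, hT⟩ := hcase
    have hd0 := hdegA 0 hA0
    obtain ⟨c, hc⟩ := eq_C_mul_of_dvd' _ _ (pow_ne_zero _ T_ne_zero) hT
      (by rw [totalDegree_T_pow]; omega)
    set A' := A + Polynomial.C (C c) * Z with hA'
    have hcoeff : ∀ k, A'.coeff k = A.coeff k + C c *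
        ((if k = p + 1 then 1 else 0) - (if k = 0 then (T (Fin n) F) ^ (q + 1) else 0)) := by
      intro k
      rw [hA', Polynomial.coeff_add, Polynomial.coeff_C_mul, hZ, Polynomial.coeff_sub,
        Polynomial.coeff_X_pow, Polynomial.coeff_C]
    have hc0 : A'.coeff 0 = 0 := by
      rw [hcoeff, if_neg (by omega), if_pos rfl, hc]; ring
    have hcN : A'.coeff (p + 1) = A.coeff (p + 1) + C c := by
      rw [hcoeff, if_pos rfl, if_neg (by omega)]; ring
    have hck : ∀ k, k ≠ 0 → k ≠ p + 1 → A'.coeff k = A.coeff k := by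
      intro k h1 h2
      rw [hcoeff, if_neg h2, if_neg h1]; ring
    have hdegA' : ∀ k, A'.coeff k ≠ 0 → (A'.coeff k).totalDegree + k ≤ q + 1 := by
      intro k hk
      by_cases h1 : k = 0
      · rw [h1] at hk; exact absurd hc0 hk
      · by_cases h2 : k = p + 1
        · rw [h2, hcN]
          have h3 : (A.coeff (p + 1) + C c).totalDegree ≤ (A.coeff (p + 1)).totalDegree := by
            refine (totalDegree_add _ _).trans ?_
            rw [totalDegree_C]
            simp
          by_cases h4 : A.coeff (p + 1) = 0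
          · rw [h4, totalDegree_zero] at h3
            rw [h4]
            omega
          · have := hdegA _ h4
            omega
        · rw [hck k h1 h2] at hk ⊢
          exact hdegA k hk
    have hZA' : ∀ Y, Z ∣ A' * Y ↔ Z ∣ A * Y := by
      intro Y
      rw [hA', add_mul]
      exact dvd_add_left ⟨Polynomial.C (C c) * Y, by ring⟩
    have ha' : ¬ Z ∣ A' := by
      have := hZA' 1
      rw [mul_one, mul_one] at this
      rwa [this]
    obtain ⟨k, k', s, t, h1, h2, h3⟩ := lower_coeff (σ := Fin n) (F := F) p (2 * M) e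
      (by rw [hr]; exact he) A' B (by rw [hr]; exact hdegA')
      (fun h => absurd hc0 h)
      (by rw [hr]; exact (hZA' B).mpr hab) (by rw [hr]; exact ha') (by rw [hr]; exact hb)
    rw [Fintype.card_fin] at h2 h3
    have hbound : ∀ k, n ^ M ≤ (A'.coeff k).support.card → n ^ M ≤ a.support.card := by
      intro k hk
      by_cases h4 : k = 0
      · rw [h4, hc0] at hk
        have := Nat.pos_of_ne_zero (pow_ne_zero M hn.ne')
        simp at hk
        omega
      · by_cases h5 : k = p + 1
        · rw [h5, hcN] at hk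
          have h6 : (A.coeff (p + 1) + C c).support.card
              ≤ (A.coeff (p + 1)).support.card + 1 := by
            refine (Finset.card_le_card support_add).trans ((Finset.card_union_le _ _).trans ?_)
            apply Nat.add_le_add_left
            refine (Finset.card_le_card (t := {0}) ?_).trans (by simp)
            rw [← monomial_zero']
            exact support_monomial_subset
          have h7 : 1 ≤ (A.coeff 0).support.card := by
            rw [Nat.one_le_iff_ne_zero, Finset.card_ne_zero, support_nonempty]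
            exact hA0
          have h8 := card_support_coeff_add_le a 0 (p + 1) (by omega)
          rw [← hA] at h8
          omega
        · rw [hck k h4 h5] at hk
          exact hk.trans (card_support_coeff_le a k)
    rcases hfin _ _ _ _ h1 h2 h3 with h | h
    · exact hbound k h
    · exact hbound k' h

lemma card_support_ex (m : ℕ) (e : ℕ) :
    (ex n F (p ^ m + 1) e).support.card ≤ n ^ 2 + 1 := by
  classical
  have hE : ExpChar F p := ExpChar.prime hp.out
  have : ExpChar (MvPolynomial (Fin (n + 1)) F) p := inferInstance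
  have h1 : ((∑ i : Fin n, X i.succ : MvPolynomial (Fin (n + 1)) F)).support.card ≤ n := by
    refine (Finset.card_le_card support_sum).trans (Finset.card_biUnion_le.trans ?_)
    simp [support_X]
  have h2 : ((∑ i : Fin n, X i.succ : MvPolynomial (Fin (n + 1)) F) ^ p ^ m).support.card ≤ n := by
    rw [sum_pow_char_pow p m]
    refine (Finset.card_le_card support_sum).trans (Finset.card_biUnion_le.trans ?_)
    have : ∀ i : Fin n, ((X i.succ : MvPolynomial (Fin (n + 1)) F) ^ p ^ m).support.card ≤ 1 := by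
      intro i
      rw [X_pow_eq_monomial]
      exact (Finset.card_le_card support_monomial_subset).trans (by simp)
    refine (Finset.sum_le_card_nsmul _ _ 1 (fun i _ => this i)).trans (by simp)
  have h3 : ((∑ i : Fin n, X i.succ : MvPolynomial (Fin (n + 1)) F) ^ (p ^ m + 1)).support.card
      ≤ n ^ 2 := by
    rw [pow_succ, pow_two]
    exact (card_support_mul_le _ _).trans (Nat.mul_le_mul h2 h1)
  unfold ex
  rw [sub_eq_add_neg]
  refine (Finset.card_le_card support_add).trans ((Finset.card_union_le _ _).trans ?_)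
  rw [support_neg, X_pow_eq_monomial]
  exact Nat.add_le_add h3 ((Finset.card_le_card support_monomial_subset).trans (by simp))

lemma totalDegree_sum_X (hn : 0 < n) (d : ℕ) :
    ((∑ i : Fin n, X i.succ : MvPolynomial (Fin (n + 1)) F) ^ d).totalDegree = d := by
  have hne : Nonempty (Fin n) := ⟨⟨0, hn⟩⟩
  have h1 : (∑ i : Fin n, X i.succ : MvPolynomial (Fin (n + 1)) F)
      = rename Fin.succ (T (Fin n) F) := by
    unfold T
    rw [map_sum]
    simp
  have h2 : (rename Fin.succ (T (Fin n) F)).totalDegree ≤ 1 :=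
    (totalDegree_rename_le _ _).trans totalDegree_T_le
  have h3 : coeff ((Finsupp.single (⟨0, hn⟩ : Fin n) 1).mapDomain Fin.succ)
      (rename Fin.succ (T (Fin n) F)) = 1 := by
    rw [coeff_rename_mapDomain _ (Fin.succ_injective n), coeff_T_single]
  have h4 : rename Fin.succ (T (Fin n) F) ≠ 0 := by
    intro h; rw [h, coeff_zero] at h3; exact zero_ne_one h3
  have h5 : 1 ≤ (rename Fin.succ (T (Fin n) F)).totalDegree := by
    have h6 : ((Finsupp.single (⟨0, hn⟩ : Fin n) 1).mapDomain Fin.succ)
        ∈ (rename Fin.succ (T (Fin n) F)).support := by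
      rw [mem_support_iff, h3]; exact one_ne_zero
    have := le_totalDegree h6
    rw [Finsupp.mapDomain_single] at this
    simpa using this
  have h7 : (rename Fin.succ (T (Fin n) F)).totalDegree = 1 := le_antisymm h2 h5
  rw [h1]
  induction d with
  | zero => simp
  | succ d ih =>
    rw [pow_succ, totalDegree_mul_of_isDomain (pow_ne_zero _ h4) h4, ih, h7]

lemma totalDegree_ex (hn : 0 < n) (d e : ℕ) (h : e < d) :
    (ex n F d e).totalDegree = d := by
  unfold ex
  rw [sub_eq_add_neg, totalDegree_add_eq_left_of_totalDegree_lt, totalDegree_sum_X hn]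
  rw [totalDegree_sum_X hn, totalDegree_neg]
  exact lt_of_le_of_lt (totalDegree_X_pow 0 e).le h

omit hp [CharP F p] in
lemma ex_reducible (hn : 0 < n) (m N e : ℕ) (hN : 1 < N) (he : e * N = p ^ m + 1) (he0 : 1 < e) :
    ¬ Irreducible (ex n F (p ^ m + 1) N) := by
  intro hirr
  set P : MvPolynomial (Fin (n + 1)) F := ∑ i : Fin n, X i.succ with hP
  have h1 : P ^ e - X 0 ∣ ex n F (p ^ m + 1) N := by
    unfold ex
    rw [← hP, ← he, pow_mul]
    exact sub_dvd_pow_sub_pow _ _ _
  have hd1 : (P ^ e - X 0).totalDegree = e := by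
    have := totalDegree_ex (F := F) hn e 1 he0
    unfold ex at this
    rwa [pow_one] at this
  have hlt : N < p ^ m + 1 := by
    rw [← he]
    have : 2 * N ≤ e * N := Nat.mul_le_mul_right N he0
    omega
  have hd2 := totalDegree_ex (F := F) hn (p ^ m + 1) N hlt
  obtain ⟨y, hy⟩ := h1
  rcases hirr.isUnit_or_isUnit hy with h | h
  · have := (MvPolynomial.isUnit_iff_totalDegree_of_isReduced.mp h).2
    omega
  · have h3 := (MvPolynomial.isUnit_iff_totalDegree_of_isReduced.mp h).2
    have hy0 : y ≠ 0 := h.ne_zero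
    have h4 : (P ^ e - X 0) ≠ 0 := by
      intro h5; rw [h5, totalDegree_zero] at hd1; omega
    rw [hy, totalDegree_mul_of_isDomain h4 hy0, hd1, h3] at hd2
    have : e * 2 ≤ e * N := Nat.mul_le_mul_left e hN
    omega

/-- Certificates `f * w = a * b` of reducibility can need superpolynomially many monomials. -/
theorem barrier (M : ℕ) (hn : 0 < n) (hM : 0 < M) :
    (ex n F (p ^ (4 * M + 1) + 1) (p + 1)).support.card ≤ n ^ 2 + 1 ∧
    (ex n F (p ^ (4 * M + 1) + 1) (p + 1)).totalDegree = p ^ (4 * M + 1) + 1 ∧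
    ¬ Irreducible (ex n F (p ^ (4 * M + 1) + 1) (p + 1)) ∧
    ∀ a b w : MvPolynomial (Fin (n + 1)) F,
      ex n F (p ^ (4 * M + 1) + 1) (p + 1) * w = a * b →
      a.totalDegree ≤ p ^ (4 * M + 1) + 1 → b.totalDegree ≤ p ^ (4 * M + 1) + 1 →
      (∀ c : F, a ≠ C c * ex n F (p ^ (4 * M + 1) + 1) (p + 1)) →
      (∀ c : F, b ≠ C c * ex n F (p ^ (4 * M + 1) + 1) (p + 1)) →
      n ^ M ≤ a.support.card ∧ n ^ M ≤ b.support.card := by
  have hp2 := hp.out.two_le
  have hpq : p + 1 < p ^ (4 * M + 1) + 1 := by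
    have : p ^ 1 < p ^ (4 * M + 1) := Nat.pow_lt_pow_right hp.out.one_lt (by omega)
    rw [pow_one] at this
    omega
  have hdeg := totalDegree_ex (F := F) hn (p ^ (4 * M + 1) + 1) (p + 1) hpq
  refine ⟨card_support_ex p _ _, hdeg, ?_, ?_⟩
  · obtain ⟨e, he⟩ : ∃ e, e * (p + 1) = p ^ (4 * M + 1) + 1 := by
      have h1 : Odd (4 * M + 1) := ⟨2 * M, by ring⟩
      have h2 := h1.nat_add_dvd_pow_add_pow p 1
      rw [one_pow] at h2
      obtain ⟨e, he⟩ := h2
      exact ⟨e, by rw [he]; ring⟩
    refine ex_reducible p hn (4 * M + 1) (p + 1) e (by omega) he ?_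
    by_contra hcon
    have : e * (p + 1) ≤ 1 * (p + 1) := Nat.mul_le_mul_right _ (by omega)
    omega
  · intro a b w h ha hb ha' hb'
    have hne : ex n F (p ^ (4 * M + 1) + 1) (p + 1) ≠ 0 := by
      intro h0; rw [h0, totalDegree_zero] at hdeg; omega
    have hnd : ∀ x : MvPolynomial (Fin (n + 1)) F, x.totalDegree ≤ p ^ (4 * M + 1) + 1 →
        (∀ c : F, x ≠ C c * ex n F (p ^ (4 * M + 1) + 1) (p + 1)) →
        ¬ ex n F (p ^ (4 * M + 1) + 1) (p + 1) ∣ x := by
      intro x hx hx' hd
      obtain ⟨c, hc⟩ := eq_C_mul_of_dvd' _ _ hne hd (by rw [hdeg]; exact hx)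
      exact hx' c hc
    have hab : ex n F (p ^ (4 * M + 1) + 1) (p + 1) ∣ a * b := ⟨w, h.symm⟩
    exact ⟨lower_bound p hn M a b hab (hnd a ha ha') (hnd b hb hb') ha,
      lower_bound p hn M b a (by rw [mul_comm b a]; exact hab) (hnd b hb hb') (hnd a ha ha') hb⟩

end Pool.Agent.SparseIrr
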