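import Mathlib

/-!
Basic facts on the logarithmic derivations `theta i = X i * pderiv i` of multivariate polynomials
in positive characteristic and on numbers of monomials.
-/

namespace Pool.Agent.SparseIrr

open MvPolynomial

variable {σ : Type*} {R : Type*} [CommRing R]

/-- the logarithmic derivation `X_i d/dX_i` -/
noncomputable def theta (i : σ) (h : MvPolynomial σ R) : MvPolynomial σ R := X i * pderiv i h

lemma coeff_theta (i : σ) (h : MvPolynomial σ R) (β : σ →₀ ℕ) :
    coeff β (theta i h) = (β i : R) * coeff β h := by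
  classical
  unfold theta
  induction h using MvPolynomial.induction_on' with
  | add p q hp hq => simp only [map_add, mul_add, coeff_add, hp, hq]
  | monomial n a =>
    rw [X_mul_pderiv_monomial, coeff_smul, coeff_monomial]
    by_cases h : n = β
    · simp [h]
    · simp [h]

lemma theta_mul (i : σ) (g h : MvPolynomial σ R) :
    theta i (g * h) = theta i g * h + g * theta i h := by
  unfold theta
  rw [pderiv_mul]; ring

lemma theta_add (i : σ) (g h : MvPolynomial σ R) :
    theta i (g + h) = theta i g + theta i h := by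
  unfold theta
  rw [map_add]; ring

lemma theta_C_mul (i : σ) (c : R) (h : MvPolynomial σ R) :
    theta i (C c * h) = C c * theta i h := by
  unfold theta
  rw [pderiv_C_mul]; ring

lemma theta_zero (i : σ) : theta i (0 : MvPolynomial σ R) = 0 := by
  unfold theta; simp

lemma theta_pow (i : σ) (g : MvPolynomial σ R) (n : ℕ) :
    theta i (g ^ n) = (n : MvPolynomial σ R) * g ^ (n - 1) * theta i g := by
  unfold theta
  rw [pderiv_pow]; ring

lemma theta_map {S : Type*} [CommRing S] (φ : R →+* S) (i : σ) (g : MvPolynomial σ R) :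
    theta i (map φ g) = map φ (theta i g) := by
  unfold theta
  rw [pderiv_map, map_mul, map_X]

lemma support_theta_subset (i : σ) (g : MvPolynomial σ R) :
    (theta i g).support ⊆ g.support := by
  intro β hβ
  rw [mem_support_iff, coeff_theta] at hβ
  rw [mem_support_iff]
  intro h0
  rw [h0, mul_zero] at hβ
  exact hβ rfl

lemma totalDegree_theta_le (i : σ) (g : MvPolynomial σ R) :
    (theta i g).totalDegree ≤ g.totalDegree := by
  unfold totalDegree
  exact Finset.sup_mono (support_theta_subset i g)

lemma degreeOf_theta_le (i j : σ) (g : MvPolynomial σ R) :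
    (theta i g).degreeOf j ≤ g.degreeOf j := by
  classical
  rw [degreeOf_eq_sup, degreeOf_eq_sup]
  exact Finset.sup_mono (support_theta_subset i g)

/-- the key coefficient identity over any commutative ring -/
lemma coeff_pow_mul_theta (i : σ) (g : MvPolynomial σ R) (n : ℕ) (hn : 0 < n) (α : σ →₀ ℕ) :
    coeff (n • α) (g ^ (n - 1) * theta i g) = (α i : R) * coeff (n • α) (g ^ n) := by
  -- lift to the free commutative ring
  let φ : MvPolynomial R ℤ →+* R := eval₂Hom (Int.castRingHom R) id
  have hφ : Function.Surjective φ := fun r => ⟨X r, by simp [φ]⟩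
  obtain ⟨G, rfl⟩ := map_surjective φ hφ g
  rw [theta_map, ← map_pow, ← map_mul, ← map_pow, coeff_map, coeff_map]
  have key : coeff (n • α) (G ^ (n - 1) * theta i G)
      = (α i : MvPolynomial R ℤ) * coeff (n • α) (G ^ n) := by
    have h1 : coeff (n • α) (theta i (G ^ n))
        = ((n • α) i : MvPolynomial R ℤ) * coeff (n • α) (G ^ n) := coeff_theta i _ _
    rw [theta_pow] at h1
    have h2 : coeff (n • α) ((n : MvPolynomial σ (MvPolynomial R ℤ)) * G ^ (n - 1) * theta i G)
        = (n : MvPolynomial R ℤ) * coeff (n • α) (G ^ (n - 1) * theta i G) := by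
      have : ((n : MvPolynomial σ (MvPolynomial R ℤ)) * G ^ (n - 1) * theta i G)
        = C (n : MvPolynomial R ℤ) * (G ^ (n - 1) * theta i G) := by
        rw [mul_assoc]; congr 1
      rw [this, coeff_C_mul]
    rw [h2] at h1
    have hn' : (n : MvPolynomial R ℤ) ≠ 0 := by exact_mod_cast hn.ne'
    apply mul_left_cancel₀ hn'
    rw [h1]
    simp [mul_assoc]
  rw [key, map_mul, map_natCast]

section CharP

variable (p : ℕ) [hp : Fact p.Prime] [CharP R p]

lemma coeff_pow_smul (g : MvPolynomial σ R) (α : σ →₀ ℕ) :
    coeff (p • α) (g ^ p) = (coeff α g) ^ p := by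
  have : ExpChar R p := ExpChar.prime hp.out
  rw [← map_frobenius_expand p, coeff_map, coeff_expand_smul p hp.out.ne_zero, frobenius_def]

lemma natCast_pow_char (n : ℕ) : ((n : R)) ^ p = (n : R) := by
  have : ExpChar R p := ExpChar.prime hp.out
  have := map_natCast (frobenius R p) n
  rwa [frobenius_def] at this

lemma coeff_pow_mul_theta_char (i : σ) (g : MvPolynomial σ R) (α : σ →₀ ℕ) :
    coeff (p • α) (g ^ (p - 1) * theta i g) = (coeff α (theta i g)) ^ p := by
  rw [coeff_pow_mul_theta i g p hp.out.pos, coeff_pow_smul, coeff_theta, mul_pow,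
    natCast_pow_char]

lemma coeff_smul_pow_mul (W V : MvPolynomial σ R)
    (h : ∀ α, coeff (p • α) W = coeff α V) (K : MvPolynomial σ R) (β : σ →₀ ℕ) :
    coeff (p • β) (K ^ p * W) = coeff β (map (frobenius R p) K * V) := by
  classical
  have : ExpChar R p := ExpChar.prime hp.out
  induction K using MvPolynomial.induction_on' with
  | add K L hK hL =>
    rw [add_pow_expChar, add_mul, coeff_add, hK, hL, map_add, add_mul, coeff_add]
  | monomial γ c =>
    rw [monomial_pow, map_monomial, coeff_monomial_mul', coeff_monomial_mul', frobenius_def]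
    have hle : (p • γ ≤ p • β) ↔ γ ≤ β := by
      constructor
      · intro hh i
        have := hh i
        simp only [Finsupp.smul_apply, smul_eq_mul] at this
        exact Nat.le_of_mul_le_mul_left this hp.out.pos
      · intro hh
        exact nsmul_le_nsmul_right hh p
    by_cases hγ : γ ≤ β
    · rw [if_pos (hle.mpr hγ), if_pos hγ]
      congr 1
      rw [← h]
      congr 1
      ext i
      simp [Nat.mul_sub]
    · rw [if_neg (fun hh => hγ (hle.mp hh)), if_neg hγ]

/-- the Niederreiter type identity, in coefficient form -/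
lemma coeff_log (i : σ) (f G K : MvPolynomial σ R) (hf : f = G * K) (β : σ →₀ ℕ) :
    coeff (p • β) (f ^ (p - 1) * (K * theta i G)) = (coeff β (K * theta i G)) ^ p := by
  have : ExpChar R p := ExpChar.prime hp.out
  have e1 : f ^ (p - 1) * (K * theta i G) = K ^ p * (G ^ (p - 1) * theta i G) := by
    obtain ⟨k, hk⟩ : ∃ k, p = k + 1 := ⟨p - 1, by have := hp.out.pos; omega⟩
    rw [hf]
    have : p - 1 = k := by omega
    rw [this, mul_pow]
    conv_rhs => rw [hk, pow_succ]
    ring
  have e2 : ∀ α, coeff (p • α) (G ^ (p - 1) * theta i G)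
      = coeff α (map (frobenius R p) (theta i G)) := by
    intro α
    rw [coeff_pow_mul_theta_char, coeff_map, frobenius_def]
  rw [e1, coeff_smul_pow_mul p _ _ e2, ← map_mul, coeff_map, frobenius_def]

end CharP

/-! ### counting monomials -/

lemma counting (p m : ℕ) (S U : Finset (σ →₀ ℕ))
    (h : ∀ β ∈ U, ∃ δ ∈ S, ∃ γ ∈ U, p • β = δ + γ)
    (hb : ∀ β ∈ U, ∀ i, β i < p ^ m) : U.card ≤ S.card ^ m := by
  classical
  have h' : ∀ β : σ →₀ ℕ, ∃ δ γ : σ →₀ ℕ, β ∈ U → (δ ∈ S ∧ γ ∈ U ∧ p • β = δ + γ) := by
    intro β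
    by_cases hβ : β ∈ U
    · obtain ⟨δ, hδ, γ, hγ, e⟩ := h β hβ
      exact ⟨δ, γ, fun _ => ⟨hδ, hγ, e⟩⟩
    · exact ⟨0, 0, fun hh => absurd hh hβ⟩
  choose d nx hdn using h'
  have hit : ∀ k, ∀ β ∈ U, (nx^[k]) β ∈ U := by
    intro k
    induction k with
    | zero => intro β hβ; simpa using hβ
    | succ k ih =>
      intro β hβ
      rw [Function.iterate_succ_apply']
      exact (hdn _ (ih β hβ)).2.1
  have hrec : ∀ k, ∀ β ∈ U, ∀ β' ∈ U, (∀ j < k, d ((nx^[j]) β) = d ((nx^[j]) β')) →
      p ^ k • β + (nx^[k]) β' = p ^ k • β' + (nx^[k]) β := by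
    intro k
    induction k with
    | zero => intro β _ β' _ _; simp [add_comm]
    | succ k ih =>
      intro β hβ β' hβ' hd
      have h0 := ih β hβ β' hβ' (fun j hj => hd j (by omega))
      have h1 := (hdn _ (hit k β hβ)).2.2
      have h2 := (hdn _ (hit k β' hβ')).2.2
      have h3 := hd k (by omega)
      rw [Function.iterate_succ_apply', Function.iterate_succ_apply']
      ext i
      have a0 := DFunLike.congr_fun h0 i
      have a1 := DFunLike.congr_fun h1 i
      have a2 := DFunLike.congr_fun h2 i
      have a3 := DFunLike.congr_fun h3 i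
      simp only [Finsupp.add_apply, Finsupp.smul_apply, smul_eq_mul] at a0 a1 a2 ⊢
      have a4 := congrArg (fun x => p * x) a0
      simp only [mul_add] at a4
      rw [pow_succ]
      have b1 : p ^ k * p * β i = p * (p ^ k * β i) := by ring
      have b2 : p ^ k * p * β' i = p * (p ^ k * β' i) := by ring
      rw [b1, b2]
      omega
  let Φ : (σ →₀ ℕ) → (Fin m → (σ →₀ ℕ)) := fun β k => d ((nx^[(k : ℕ)]) β)
  have hmaps : ∀ β ∈ U, Φ β ∈ Fintype.piFinset (fun _ : Fin m => S) := by
    intro β hβ
    rw [Fintype.mem_piFinset]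
    intro k
    exact (hdn _ (hit k β hβ)).1
  have hinj : Set.InjOn Φ (U : Set (σ →₀ ℕ)) := by
    intro β hβ β' hβ' hΦ
    have hk := hrec m β hβ β' hβ' (by
      intro j hj
      exact congrFun hΦ ⟨j, hj⟩)
    ext i
    have a0 := DFunLike.congr_fun hk i
    simp only [Finsupp.add_apply, Finsupp.smul_apply, smul_eq_mul] at a0
    have b1 := hb _ (hit m β hβ) i
    have b2 := hb _ (hit m β' hβ') i
    set q := p ^ m
    have hq : 0 < q := by omega
    have c1 : (q * β i + (nx^[m]) β' i) / q = β i := by
      rw [Nat.mul_add_div hq, Nat.div_eq_of_lt b2, add_zero]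
    have c2 : (q * β' i + (nx^[m]) β i) / q = β' i := by
      rw [Nat.mul_add_div hq, Nat.div_eq_of_lt b1, add_zero]
    rw [← c1, ← c2, a0]
  have := Finset.card_le_card_of_injOn Φ hmaps hinj
  rwa [Fintype.card_piFinset_const] at this

lemma card_support_mul_le (f g : MvPolynomial σ R) :
    (f * g).support.card ≤ f.support.card * g.support.card := by
  classical
  exact (Finset.card_le_card (support_mul f g)).trans Finset.card_add_le

lemma card_support_pow_le (f : MvPolynomial σ R) (k : ℕ) :
    (f ^ k).support.card ≤ f.support.card ^ k := by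
  classical
  induction k with
  | zero =>
    rw [pow_zero, pow_zero]
    refine (Finset.card_le_card (t := {0}) ?_).trans (by simp)
    intro β hβ
    rw [mem_support_iff, coeff_one] at hβ
    rw [Finset.mem_singleton]
    by_contra hne
    exact hβ (if_neg (fun h => hne h.symm))
  | succ k ih =>
    rw [pow_succ, pow_succ]
    exact (card_support_mul_le _ _).trans (Nat.mul_le_mul_right _ ih)

end Pool.Agent.SparseIrr
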