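import Pool.Agent.SparseIrr.Basic

namespace Pool.Agent.SparseIrr

open MvPolynomial

variable {σ : Type*} {F : Type*} [Field F] (p : ℕ) [hp : Fact p.Prime] [CharP F p]

lemma degreeOf_log_le (i j : σ) (f G K : MvPolynomial σ F) (hf : f = G * K) (hf0 : f ≠ 0) :
    (K * theta i G).degreeOf j ≤ f.degreeOf j := by
  have hG : G ≠ 0 := by rintro rfl; apply hf0; rw [hf, zero_mul]
  have hK : K ≠ 0 := by rintro rfl; apply hf0; rw [hf, mul_zero]
  rw [hf, degreeOf_mul_eq hG hK]
  have h1 := degreeOf_mul_le j K (theta i G)
  have h2 := degreeOf_theta_le i j G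
  omega

lemma totalDegree_log_le (i : σ) (f G K : MvPolynomial σ F) (hf : f = G * K) (hf0 : f ≠ 0) :
    (K * theta i G).totalDegree ≤ f.totalDegree := by
  have hG : G ≠ 0 := by rintro rfl; apply hf0; rw [hf, zero_mul]
  have hK : K ≠ 0 := by rintro rfl; apply hf0; rw [hf, mul_zero]
  rw [hf, totalDegree_mul_of_isDomain hG hK]
  have h1 := totalDegree_mul K (theta i G)
  have h2 := totalDegree_theta_le i G
  omega

/-- support bound for logarithmic derivatives -/
lemma support_bound (m : ℕ) (i : σ) (f G K : MvPolynomial σ F) (hf : f = G * K) (hf0 : f ≠ 0)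
    (hdeg : ∀ j, f.degreeOf j < p ^ m) :
    (K * theta i G).support.card ≤ (f ^ (p - 1)).support.card ^ m := by
  classical
  apply counting p m
  · intro β hβ
    have h1 : coeff (p • β) (f ^ (p - 1) * (K * theta i G)) ≠ 0 := by
      rw [coeff_log p i f G K hf]
      exact pow_ne_zero _ (mem_support_iff.mp hβ)
    have h2 := support_mul (f ^ (p - 1)) (K * theta i G) (mem_support_iff.mpr h1)
    rw [Finset.mem_add] at h2
    obtain ⟨δ, hδ, γ, hγ, e⟩ := h2
    exact ⟨δ, hδ, γ, hγ, e.symm⟩
  · intro β hβ j
    exact lt_of_le_of_lt ((monomial_le_degreeOf j hβ).trans (degreeOf_log_le i j f G K hf hf0))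
      (hdeg j)

omit hp [CharP F p] in
lemma pow_charP_pow_eq (h : ExpChar F p) (f : MvPolynomial σ F) (m : ℕ) :
    f ^ p ^ m = ∑ γ ∈ f.support, monomial (p ^ m • γ) ((coeff γ f) ^ p ^ m) := by
  conv_lhs => rw [as_sum f]
  have : ExpChar (MvPolynomial σ F) p := inferInstance
  rw [sum_pow_char_pow p m]
  apply Finset.sum_congr rfl
  intro γ _
  rw [monomial_pow]

/-- multiplying by `f ^ q` spreads the monomials of `w` -/
lemma card_mul_le (m : ℕ) (w f : MvPolynomial σ F)
    (hw : ∀ β ∈ w.support, ∀ i, β i < p ^ m) :
    w.support.card * f.support.card ≤ (w * f ^ p ^ m).support.card := by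
  classical
  have hE : ExpChar F p := ExpChar.prime hp.out
  set q := p ^ m with hq
  have hqpos : 0 < q := pow_pos hp.out.pos m
  rw [← Finset.card_product]
  apply Finset.card_le_card_of_injOn (fun x => x.1 + q • x.2)
  · rintro ⟨β, γ⟩ hx
    have hx' := Finset.mem_product.mp (Finset.mem_coe.mp hx)
    obtain ⟨hβ, hγ⟩ := hx'
    simp only at hβ hγ
    apply Finset.mem_coe.mpr
    rw [mem_support_iff]
    simp only
    have : coeff (β + q • γ) (w * f ^ q) = coeff β w * (coeff γ f) ^ q := by
      rw [hq, pow_charP_pow_eq p hE f m, ← hq, Finset.mul_sum, coeff_sum]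
      rw [Finset.sum_eq_single_of_mem γ hγ]
      · rw [coeff_mul_monomial]
      · intro γ' hγ' hne
        rw [coeff_mul_monomial']
        split_ifs with hle
        · have hex : ∃ i, γ' i < γ i := by
            by_contra hcon
            push Not at hcon
            apply hne
            ext i
            have h1 := hle i
            simp only [Finsupp.smul_apply, smul_eq_mul, Finsupp.add_apply] at h1
            have h2 := hw β hβ i
            have h3 := hcon i
            by_contra hlt
            have h4 : γ i + 1 ≤ γ' i := by omega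
            have h5 : q * (γ i + 1) ≤ q * γ' i := Nat.mul_le_mul_left q h4
            have h6 : q * (γ i + 1) = q * γ i + q := by ring
            omega
          obtain ⟨i, hi⟩ := hex
          have h0 : coeff (β + q • γ - q • γ') w = 0 := by
            by_contra hne0
            have := hw _ (mem_support_iff.mpr hne0) i
            simp only [Finsupp.coe_tsub, Finsupp.coe_add, Finsupp.coe_smul, Pi.sub_apply,
              Pi.add_apply, Pi.smul_apply, smul_eq_mul] at this
            have h5 : q * (γ' i + 1) ≤ q * γ i := Nat.mul_le_mul_left q hi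
            have h6 : q * (γ' i + 1) = q * γ' i + q := by ring
            omega
          rw [h0, zero_mul]
        · rfl
    rw [this]
    exact mul_ne_zero (mem_support_iff.mp hβ) (pow_ne_zero _ (mem_support_iff.mp hγ))
  · rintro ⟨β, γ⟩ hx ⟨β', γ'⟩ hx' e
    have h1 := (Finset.mem_product.mp (Finset.mem_coe.mp hx)).1
    have h2 := (Finset.mem_product.mp (Finset.mem_coe.mp hx')).1
    simp only at h1 h2 e
    have key : ∀ i, β i = β' i ∧ γ i = γ' i := by
      intro i
      have e' := DFunLike.congr_fun e i
      simp only [Finsupp.smul_apply, smul_eq_mul, Finsupp.add_apply] at e'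
      have b1 := hw β h1 i
      have b2 := hw β' h2 i
      have c1 : (β i + q * γ i) / q = γ i := by
        rw [Nat.add_mul_div_left _ _ hqpos, Nat.div_eq_of_lt b1, zero_add]
      have c2 : (β' i + q * γ' i) / q = γ' i := by
        rw [Nat.add_mul_div_left _ _ hqpos, Nat.div_eq_of_lt b2, zero_add]
      have c3 : γ i = γ' i := by rw [← c1, ← c2, e']
      refine ⟨?_, c3⟩
      rw [c3] at e'
      omega
    have k1 : β = β' := Finsupp.ext fun i => (key i).1
    have k2 : γ = γ' := Finsupp.ext fun i => (key i).2
    rw [k1, k2]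

lemma card_support_frob_le (f : MvPolynomial σ F) :
    (f ^ p).support.card ≤ f.support.card := by
  classical
  have hE : ExpChar F p := ExpChar.prime hp.out
  have := pow_charP_pow_eq p hE f 1
  rw [pow_one] at this
  rw [this]
  refine (Finset.card_le_card (support_sum)).trans ?_
  refine Finset.card_biUnion_le.trans ?_
  refine (Finset.sum_le_card_nsmul _ _ 1 ?_).trans (by simp)
  intro γ _
  refine (Finset.card_le_card support_monomial_subset).trans ?_
  simp

lemma card_support_pow_pred_le (f : MvPolynomial σ F) (m : ℕ) :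
    (f ^ (p ^ m - 1)).support.card ≤ (f ^ (p - 1)).support.card ^ m := by
  induction m with
  | zero =>
    rw [pow_zero, Nat.sub_self, pow_zero, pow_zero]
    simp
  | succ m ih =>
    have h1 : p ^ (m + 1) - 1 = (p ^ m - 1) * p + (p - 1) := by
      have h2 : 0 < p ^ m := pow_pos hp.out.pos m
      have h3 : 0 < p := hp.out.pos
      rw [Nat.sub_mul, pow_succ, one_mul]
      have h4 : p ≤ p ^ m * p := Nat.le_mul_of_pos_left p h2
      omega
    rw [h1, pow_add, pow_mul, pow_succ]
    exact (card_support_mul_le _ _).trans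
      (Nat.mul_le_mul_right _ ((card_support_frob_le p _).trans ih))

/-- bound for a cofactor -/
lemma cofactor_bound (m : ℕ) (f w c : MvPolynomial σ F) (h : f * w = c)
    (hw : ∀ β ∈ w.support, ∀ i, β i < p ^ m) :
    w.support.card * f.support.card ≤ c.support.card * (f ^ (p - 1)).support.card ^ m := by
  have h1 := card_mul_le p m w f hw
  have hqpos : 0 < p ^ m := pow_pos hp.out.pos m
  have h2 : w * f ^ p ^ m = c * f ^ (p ^ m - 1) := by
    obtain ⟨k, hk⟩ : ∃ k, p ^ m = k + 1 := ⟨p ^ m - 1, by omega⟩
    rw [hk, Nat.add_sub_cancel, pow_succ, ← h]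
    ring
  rw [h2] at h1
  exact h1.trans ((card_support_mul_le _ _).trans
    (Nat.mul_le_mul_left _ (card_support_pow_pred_le p f m)))

end Pool.Agent.SparseIrr
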