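import Pool.Agent.SparseIrr.BarrierMain

namespace Pool.Agent.SparseIrr

open MvPolynomial

section upper

variable {σ : Type*} {F : Type*} [Field F]

lemma exists_sym (g : MvPolynomial σ F) (k : ℕ) : ∀ β ∈ (g ^ k).support,
    ∃ s : Sym g.support k, ((s : Multiset g.support).map Subtype.val).sum = β := by
  classical
  induction k with
  | zero =>
    intro β hβ
    rw [pow_zero, mem_support_iff, coeff_one] at hβ
    refine ⟨Sym.nil, ?_⟩
    by_contra hne
    apply hβ
    rw [if_neg]
    intro h
    apply hne
    rw [← h]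
    simp
  | succ k ih =>
    intro β hβ
    rw [pow_succ] at hβ
    have h2 := support_mul _ _ hβ
    rw [Finset.mem_add] at h2
    obtain ⟨γ, hγ, δ, hδ, rfl⟩ := h2
    obtain ⟨s, hs⟩ := ih γ hγ
    refine ⟨Sym.cons ⟨δ, hδ⟩ s, ?_⟩
    rw [Sym.coe_cons, Multiset.map_cons, Multiset.sum_cons, hs, add_comm]

lemma card_support_pow_le_multichoose (g : MvPolynomial σ F) (k : ℕ) :
    (g ^ k).support.card ≤ Nat.multichoose g.support.card k := by
  classical
  have h1 : (g ^ k).support ⊆ (Finset.univ : Finset (Sym g.support k)).image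
      (fun s : Sym g.support k => ((s : Multiset g.support).map Subtype.val).sum) := by
    intro β hβ
    obtain ⟨s, hs⟩ := exists_sym g k β hβ
    rw [Finset.mem_image]
    exact ⟨s, Finset.mem_univ _, hs⟩
  refine (Finset.card_le_card h1).trans (Finset.card_image_le.trans ?_)
  rw [Finset.card_univ, Sym.card_sym_eq_multichoose, Fintype.card_coe]

variable (p : ℕ) [hp : Fact p.Prime] [CharP F p]

lemma cofactor_multichoose (m : ℕ) (f g h : MvPolynomial σ F) (hf : f = g * h)
    (hdeg : ∀ i, h.degreeOf i < p ^ m) :
    h.support.card * g.support.card ≤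
      f.support.card * (Nat.multichoose g.support.card (p - 1)) ^ m := by
  have h1 := cofactor_bound p m g h f hf.symm
    (fun β hβ i => lt_of_le_of_lt (monomial_le_degreeOf i hβ) (hdeg i))
  exact h1.trans (Nat.mul_le_mul_left _
    (Nat.pow_le_pow_left (card_support_pow_le_multichoose g (p - 1)) m))

end upper

section lower

variable {σ : Type*} [Fintype σ] [DecidableEq σ] {F : Type*} [Field F] (p : ℕ)
  [hp : Fact p.Prime] [CharP F p]

lemma coeff_T_pow (k : ℕ) (α : σ → ℕ) (hα : α ∈ Finset.piAntidiag Finset.univ k) :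
    coeff (Finsupp.equivFunOnFinite.symm α) ((T σ F) ^ k)
      = ((Nat.multinomial Finset.univ α : ℕ) : F) := by
  unfold T
  rw [Finset.sum_pow_eq_sum_piAntidiag, coeff_sum]
  have h1 : ∀ β : σ → ℕ, ∏ i, (X i : MvPolynomial σ F) ^ β i
      = monomial (Finsupp.equivFunOnFinite.symm β) 1 := by
    intro β
    rw [monomial_eq, map_one, one_mul, Finsupp.prod_fintype]
    · rfl
    · intro i; simp
  rw [Finset.sum_eq_single_of_mem α hα]
  · rw [h1]
    have : ((Nat.multinomial Finset.univ α : ℕ) : MvPolynomial σ F)
        = C ((Nat.multinomial Finset.univ α : ℕ) : F) := by simp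
    rw [this, coeff_C_mul, coeff_monomial, if_pos rfl, mul_one]
  · intro β _ hne
    rw [h1]
    have : ((Nat.multinomial Finset.univ β : ℕ) : MvPolynomial σ F)
        = C ((Nat.multinomial Finset.univ β : ℕ) : F) := by simp
    rw [this, coeff_C_mul, coeff_monomial, if_neg, mul_zero]
    intro h
    exact hne (Finsupp.equivFunOnFinite.symm.injective h)

lemma card_T_pow_ge : Nat.multichoose (Fintype.card σ) (p - 1)
    ≤ ((T σ F) ^ (p - 1)).support.card := by
  rw [← Finset.card_univ, ← Finset.card_finsuppAntidiag_nat_eq_multichoose]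
  apply Finset.card_le_card
  intro α hα
  have hα1 : ∑ i, α i = p - 1 := (Finset.mem_finsuppAntidiag.mp hα).1
  have hα2 : (α : σ → ℕ) ∈ Finset.piAntidiag Finset.univ (p - 1) := by
    rw [Finset.mem_piAntidiag]
    exact ⟨hα1, fun i _ => Finset.mem_univ i⟩
  have hα3 : Finsupp.equivFunOnFinite.symm (α : σ → ℕ) = α :=
    Finsupp.equivFunOnFinite.symm_apply_apply α
  rw [mem_support_iff, ← hα3, coeff_T_pow (p - 1) (α : σ → ℕ) hα2]
  intro h0
  rw [CharP.cast_eq_zero_iff F p] at h0
  have h2 : Nat.multinomial Finset.univ (α : σ → ℕ) ∣ (p - 1).factorial := by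
    have h3 := Nat.multinomial_spec (Finset.univ : Finset σ) (α : σ → ℕ)
    rw [hα1] at h3
    exact Dvd.intro_left _ h3
  have h5 := (hp.out.dvd_factorial).mp (h0.trans h2)
  have := hp.out.two_le
  omega

lemma card_T_pow_pow_ge (m : ℕ) : (Nat.multichoose (Fintype.card σ) (p - 1)) ^ m
    ≤ ((T σ F) ^ (p ^ m - 1)).support.card := by
  induction m with
  | zero =>
    rw [pow_zero, pow_zero, Nat.sub_self, pow_zero, Nat.one_le_iff_ne_zero, Finset.card_ne_zero,
      support_nonempty]
    exact one_ne_zero
  | succ m ih =>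
    have hq : 0 < p ^ m := pow_pos hp.out.pos m
    have h1 : p ^ (m + 1) - 1 = (p ^ m - 1) + (p - 1) * p ^ m := by
      have h3 : 0 < p := hp.out.pos
      rw [Nat.sub_mul, pow_succ, one_mul]
      have h4 : p ^ m ≤ p * p ^ m := Nat.le_mul_of_pos_left _ h3
      rw [mul_comm (p ^ m) p]
      omega
    rw [h1, pow_add (T σ F), pow_mul (T σ F), pow_succ]
    refine (Nat.mul_le_mul ih (card_T_pow_ge (F := F) (σ := σ) p)).trans ?_
    apply card_mul_le p m
    intro β hβ i
    have h2 := le_totalDegree hβ
    have h3 : ((T σ F) ^ (p ^ m - 1)).totalDegree ≤ p ^ m - 1 := by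
      refine (totalDegree_pow _ _).trans ?_
      have := totalDegree_T_le (σ := σ) (F := F)
      calc (p ^ m - 1) * (T σ F).totalDegree ≤ (p ^ m - 1) * 1 := Nat.mul_le_mul_left _ this
        _ = _ := mul_one _
    have h4 : β i ≤ β.sum fun _ e => e := by
      by_cases hi : i ∈ β.support
      · exact Finset.single_le_sum (f := fun j => β j) (fun _ _ => Nat.zero_le _) hi
      · rw [Finsupp.notMem_support_iff.mp hi]; exact Nat.zero_le _
    omega

lemma card_support_T : (T σ F).support.card = Fintype.card σ := by
  have h1 : (T σ F).support = Finset.univ.image (fun i : σ => Finsupp.single i 1) := by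
    ext β
    rw [mem_support_iff, Finset.mem_image]
    constructor
    · intro h
      unfold T at h
      rw [coeff_sum] at h
      obtain ⟨i, hi, hne⟩ := Finset.exists_ne_zero_of_sum_ne_zero h
      rw [coeff_X] at hne
      exact ⟨i, hi, by by_contra hcon; exact hne (if_neg hcon)⟩
    · rintro ⟨i, _, rfl⟩
      rw [coeff_T_single]; exact one_ne_zero
  rw [h1, Finset.card_image_of_injective, Finset.card_univ]
  exact Finsupp.single_left_injective one_ne_zero

end lower

section sharp

variable {F : Type*} [Field F] (p : ℕ) [hp : Fact p.Prime] [CharP F p] {n : ℕ}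

/-- the sum of the last `n` variables -/
noncomputable def S (n : ℕ) (F : Type*) [Field F] : MvPolynomial (Fin (n + 1)) F :=
  ∑ i : Fin n, X i.succ

lemma S_eq : S n F = rename Fin.succ (T (Fin n) F) := by
  unfold S T
  rw [map_sum]
  simp

lemma card_support_rename_succ (a : MvPolynomial (Fin n) F) :
    (rename Fin.succ a).support.card = a.support.card := by
  classical
  rw [support_rename_of_injective (Fin.succ_injective n), Finset.card_image_of_injective]
  exact Finsupp.mapDomain_injective (Fin.succ_injective n)

omit hp [CharP F p] in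
lemma degreeOf_S_pow_le (d : ℕ) (i : Fin (n + 1)) : (S n F ^ d).degreeOf i ≤ d := by
  have h1 : (S n F ^ d).totalDegree ≤ d := by
    refine (totalDegree_pow _ _).trans ?_
    have h2 : (S n F).totalDegree ≤ 1 := by
      rw [S_eq]
      exact (totalDegree_rename_le _ _).trans totalDegree_T_le
    calc d * (S n F).totalDegree ≤ d * 1 := Nat.mul_le_mul_left _ h2
      _ = d := mul_one d
  exact (degreeOf_le_totalDegree _ _).trans h1

theorem sharp_example (m : ℕ) (hm : 0 < m) :
    (S n F).support.card = n ∧
    (∀ i, (S n F ^ (p ^ m - 1) + X 0).degreeOf i < p ^ m) ∧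
    (S n F * (S n F ^ (p ^ m - 1) + X 0)).support.card * (Nat.multichoose n (p - 1)) ^ m
      ≤ 2 * ((S n F ^ (p ^ m - 1) + X 0).support.card * (S n F).support.card) := by
  classical
  have hE : ExpChar F p := ExpChar.prime hp.out
  have hE2 : ExpChar (MvPolynomial (Fin (n + 1)) F) p := inferInstance
  have hq : 2 ≤ p ^ m := by
    have := Nat.pow_le_pow_left hp.out.two_le m
    have h2 : 2 ^ 1 ≤ 2 ^ m := Nat.pow_le_pow_right (by omega) hm
    omega
  have hS : (S n F).support.card = n := by
    rw [S_eq, card_support_rename_succ, card_support_T, Fintype.card_fin]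
  refine ⟨hS, ?_, ?_⟩
  · intro i
    refine lt_of_le_of_lt (degreeOf_add_le _ _ _) ?_
    rw [max_lt_iff]
    constructor
    · have := degreeOf_S_pow_le (F := F) (n := n) (p ^ m - 1) i
      omega
    · rw [degreeOf_X]
      split_ifs <;> omega
  · have hlow : (Nat.multichoose n (p - 1)) ^ m ≤ (S n F ^ (p ^ m - 1) + X 0).support.card := by
      have h1 := card_T_pow_pow_ge (σ := Fin n) (F := F) p m
      rw [Fintype.card_fin] at h1
      refine h1.trans ?_
      have h2 : ((T (Fin n) F) ^ (p ^ m - 1)).support.card
          = (S n F ^ (p ^ m - 1)).support.card := by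
        rw [S_eq, ← map_pow, card_support_rename_succ]
      rw [h2]
      apply Finset.card_le_card
      intro β hβ
      have h3 : β ≠ Finsupp.single 0 1 := by
        rintro rfl
        rw [S_eq, ← map_pow, support_rename_of_injective (Fin.succ_injective n),
          Finset.mem_image] at hβ
        obtain ⟨γ, _, hγ⟩ := hβ
        have h4 := DFunLike.congr_fun hγ 0
        rw [Finsupp.mapDomain_of_notMem_range, Finsupp.single_eq_same] at h4
        · exact zero_ne_one h4
        · rintro ⟨j, hj⟩
          exact Fin.succ_ne_zero j hj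
      rw [mem_support_iff] at hβ ⊢
      rw [coeff_add, coeff_X, if_neg (fun h => h3 h.symm), add_zero]
      exact hβ
    have hup : (S n F * (S n F ^ (p ^ m - 1) + X 0)).support.card ≤ 2 * n := by
      have e1 : S n F * (S n F ^ (p ^ m - 1) + X 0) = S n F ^ p ^ m + S n F * X 0 := by
        obtain ⟨k, hk⟩ : ∃ k, p ^ m = k + 1 := ⟨p ^ m - 1, by omega⟩
        rw [hk, Nat.add_sub_cancel, pow_succ]; ring
      have h2 : (S n F ^ p ^ m).support.card ≤ n := by
        unfold S
        rw [sum_pow_char_pow p m]
        refine (Finset.card_le_card support_sum).trans (Finset.card_biUnion_le.trans ?_)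
        have : ∀ i : Fin n,
            ((X i.succ : MvPolynomial (Fin (n + 1)) F) ^ p ^ m).support.card ≤ 1 := by
          intro i
          rw [X_pow_eq_monomial]
          exact (Finset.card_le_card support_monomial_subset).trans (by simp)
        refine (Finset.sum_le_card_nsmul _ _ 1 (fun i _ => this i)).trans (by simp)
      have h3 : (S n F * X 0).support.card ≤ n := by
        refine (card_support_mul_le _ _).trans ?_
        rw [hS, support_X, Finset.card_singleton, mul_one]
      rw [e1]
      refine (Finset.card_le_card support_add).trans ((Finset.card_union_le _ _).trans ?_)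
      omega
    rw [hS]
    calc _ ≤ 2 * n * (S n F ^ (p ^ m - 1) + X 0).support.card := Nat.mul_le_mul hup hlow
      _ = _ := by ring

end sharp

end Pool.Agent.SparseIrr
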