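import Pool.Agent.SparseIrr.Digits

namespace Pool.Agent.SparseIrr

open Polynomial

variable {R : Type*} [CommRing R] [IsDomain R]

/-- the value at `E g` where `g` generates a cyclic group of order `N` -/
noncomputable def Phi (N : ℕ) (E : R) : R[X] →+* AddMonoidAlgebra R (ZMod N) :=
  Polynomial.eval₂RingHom AddMonoidAlgebra.singleZeroRingHom (AddMonoidAlgebra.single 1 E)

omit [IsDomain R] in
lemma Phi_coeff (N : ℕ) (E : R) (A : R[X]) (κ : ZMod N) :
    (Phi N E A).coeff κ = ∑ k ∈ A.support, if (k : ZMod N) = κ then A.coeff k * E ^ k else 0 := by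
  classical
  have h : Phi N E A = ∑ k ∈ A.support, AddMonoidAlgebra.single (k : ZMod N) (A.coeff k * E ^ k) := by
    unfold Phi
    rw [coe_eval₂RingHom, eval₂_eq_sum, Polynomial.sum]
    apply Finset.sum_congr rfl
    intro k _
    rw [AddMonoidAlgebra.single_pow]
    simp [AddMonoidAlgebra.single_mul_single]
  rw [h, AddMonoidAlgebra.coeff_sum, Finsupp.finsetSum_apply]
  apply Finset.sum_congr rfl
  intro k _
  rw [AddMonoidAlgebra.coeff_single, Finsupp.single_apply]

lemma Phi_eq_zero_iff (N : ℕ) (hN : 0 < N) (E : R) (hE : E ≠ 0) (A : R[X]) :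
    Phi N E A = 0 ↔ (X ^ N - C (E ^ N)) ∣ A := by
  classical
  have hmonic : (X ^ N - C (E ^ N) : R[X]).Monic := monic_X_pow_sub_C _ hN.ne'
  have hz : Phi N E (X ^ N - C (E ^ N)) = 0 := by
    unfold Phi
    rw [map_sub, map_pow, coe_eval₂RingHom, eval₂_X, eval₂_C, AddMonoidAlgebra.single_pow]
    simp
  constructor
  · intro h
    rw [← modByMonic_eq_zero_iff_dvd hmonic]
    set r := A %ₘ (X ^ N - C (E ^ N)) with hr
    have h1 : Phi N E r = 0 := by
      have h2 := modByMonic_add_div A (X ^ N - C (E ^ N))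
      have h3 := congrArg (Phi N E) h2
      rw [map_add, map_mul, hz, zero_mul, add_zero, h] at h3
      exact h3
    have hdeg : ∀ k, N ≤ k → r.coeff k = 0 := by
      intro k hk
      apply coeff_eq_zero_of_degree_lt
      have h4 := degree_modByMonic_lt A hmonic
      rw [degree_X_pow_sub_C hN] at h4
      exact lt_of_lt_of_le h4 (by exact_mod_cast hk)
    ext k
    rw [coeff_zero]
    by_cases hk : N ≤ k
    · exact hdeg k hk
    · push Not at hk
      have h5 := Phi_coeff N E r (k : ZMod N)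
      rw [h1] at h5
      by_contra hne
      have hmem : k ∈ r.support := mem_support_iff.mpr hne
      rw [Finset.sum_eq_single_of_mem k hmem, if_pos rfl] at h5
      · have h6 : (0 : AddMonoidAlgebra R (ZMod N)).coeff (k : ZMod N) = 0 := rfl
        rw [h6] at h5
        exact (mul_ne_zero hne (pow_ne_zero _ hE)) h5.symm
      · intro j hj hjk
        rw [if_neg]
        intro heq
        apply hjk
        have hjN : j < N := by
          by_contra hcon
          exact (mem_support_iff.mp hj) (hdeg j (by omega))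
        have h7 := (ZMod.natCast_eq_natCast_iff' j k N).mp heq
        rwa [Nat.mod_eq_of_lt hjN, Nat.mod_eq_of_lt hk] at h7
  · rintro ⟨B, rfl⟩
    rw [map_mul, hz, zero_mul]

lemma Phi_two_min [WfDvdMonoid R] {t : R} (ht : Prime t) (N : ℕ) [NeZero N] (E : R) (hE : E ≠ 0)
    (A B : R[X]) (h : (X ^ N - C (E ^ N)) ∣ A * B) (hA : ¬ (X ^ N - C (E ^ N)) ∣ A)
    (hB : ¬ (X ^ N - C (E ^ N)) ∣ B) :
    ∃ (w : ℕ) (κ κ' : ZMod N), κ ≠ κ' ∧
      (t ^ w ∣ (Phi N E A).coeff κ ∧ ¬ t ^ (w + 1) ∣ (Phi N E A).coeff κ) ∧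
      (t ^ w ∣ (Phi N E A).coeff κ' ∧ ¬ t ^ (w + 1) ∣ (Phi N E A).coeff κ') := by
  classical
  have hN : 0 < N := Nat.pos_of_ne_zero (NeZero.ne N)
  rw [← Phi_eq_zero_iff N hN E hE] at h hA hB
  rw [map_mul] at h
  have hne : ∀ x : AddMonoidAlgebra R (ZMod N), x ≠ 0 → ∃ g, x.coeff g ≠ 0 := by
    intro x hx
    by_contra hcon
    push Not at hcon
    apply hx
    ext g
    exact hcon g
  refine two_min ht (fun g => (Phi N E A).coeff g) (fun g => (Phi N E B).coeff g)
    (hne _ hA) (hne _ hB) ?_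
  intro g
  have h1 : (Phi N E A * Phi N E B).coeff g = 0 := by rw [h]; rfl
  rw [AddMonoidAlgebra.coeff_mul_apply_left, Finsupp.sum_fintype] at h1
  · rw [← h1]
    apply Finset.sum_congr rfl
    intro κ _
    congr 2
    abel
  · intro i; simp

end Pool.Agent.SparseIrr
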