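import Pool.Agent.SparseIrr.Vanish2

namespace Pool.Agent.SparseIrr

lemma wt_step2 (p v : ℕ) (hp : 1 < p) :
    wt p (v / (p * p)) + (if v % (p * p) = 0 then 0 else 1) ≤ wt p v := by
  rw [wt_step p v hp, wt_step p (v / p) hp, Nat.div_div_eq_div_mul]
  by_cases h : v % (p * p) = 0
  · rw [if_pos h]; omega
  · rw [if_neg h]
    by_cases h1 : v % p = 0
    · by_cases h2 : (v / p) % p = 0
      · exfalso
        apply h
        obtain ⟨a, ha⟩ := Nat.dvd_of_mod_eq_zero h1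
        rw [ha, Nat.mul_div_cancel_left _ (by omega)] at h2
        obtain ⟨b, hb⟩ := Nat.dvd_of_mod_eq_zero h2
        apply Nat.mod_eq_zero_of_dvd
        exact ⟨b, by rw [ha, hb]; ring⟩
      · rw [if_neg h2]; omega
    · rw [if_neg h1]; omega

/-- differences of numbers with few nonzero digits avoid `δ (p ^ (2 r + 1) + 1) / (p + 1)` -/
lemma digits_lower (p : ℕ) (hp : 1 < p) (r : ℕ) : ∀ (v v' c δ : ℕ) (e : ℤ), c ≤ 1 → 1 ≤ δ →
    δ ≤ p → ((p : ℤ) + 1) * e = δ * ((p : ℤ) ^ (2 * r + 1) + 1) →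
    (v : ℤ) + c = v' + e → r ≤ wt p v + wt p v' := by
  induction r with
  | zero => intros; exact Nat.zero_le _
  | succ r ih =>
    intro v v' c δ e hc hδ1 hδ2 he hv
    have hdvd : (p : ℤ) + 1 ∣ (p : ℤ) ^ (2 * r + 1) + 1 := by
      have h1 : Odd (2 * r + 1) := ⟨r, rfl⟩
      have := h1.add_dvd_pow_add_pow (p : ℤ) 1
      simpa using this
    obtain ⟨k, hk⟩ := hdvd
    have he' : ((p : ℤ) + 1) * (δ * k) = δ * ((p : ℤ) ^ (2 * r + 1) + 1) := by
      rw [hk]; ring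
    have hpp : ((p : ℤ) + 1) ≠ 0 := by positivity
    have hrec : e = (p : ℤ) * p * (δ * k) - δ * (p - 1) := by
      apply mul_left_cancel₀ hpp
      rw [he]
      have h2 : ((p : ℤ) + 1) * ((p : ℤ) * p * (δ * k) - δ * (p - 1))
          = (p : ℤ) * p * (((p : ℤ) + 1) * (δ * k)) - δ * (p - 1) * (p + 1) := by ring
      rw [h2, he']
      ring
    set V := v / (p * p) with hV
    set s := v % (p * p) with hs
    set V' := v' / (p * p) with hV'
    set s' := v' % (p * p) with hs'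
    have e1 : v = p * p * V + s := (Nat.div_add_mod v (p * p)).symm
    have e2 : v' = p * p * V' + s' := (Nat.div_add_mod v' (p * p)).symm
    have hppos : 0 < p * p := Nat.mul_pos (by omega) (by omega)
    have b1 : s < p * p := Nat.mod_lt _ hppos
    have b2 : s' < p * p := Nat.mod_lt _ hppos
    have b1z : (s : ℤ) < p * p := by exact_mod_cast b1
    have b2z : (s' : ℤ) < p * p := by exact_mod_cast b2
    have s0 : (0 : ℤ) ≤ s := Int.natCast_nonneg _
    have s0' : (0 : ℤ) ≤ s' := Int.natCast_nonneg _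
    have c0 : (0 : ℤ) ≤ c := Int.natCast_nonneg _
    have c1 : (c : ℤ) ≤ 1 := by exact_mod_cast hc
    have p2 : (2 : ℤ) ≤ p := by exact_mod_cast hp
    have d1 : (p : ℤ) - 1 ≤ δ * (p - 1) := by
      have h7 : (1 : ℤ) ≤ δ := by exact_mod_cast hδ1
      exact le_mul_of_one_le_left (by linarith) h7
    have d2 : (δ : ℤ) * (p - 1) ≤ (p : ℤ) * p - p := by
      have h7 : (δ : ℤ) ≤ p := by exact_mod_cast hδ2
      have h8 : (δ : ℤ) * (p - 1) ≤ (p : ℤ) * (p - 1) :=
        mul_le_mul_of_nonneg_right h7 (by linarith)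
      have h9 : (p : ℤ) * (p - 1) = (p : ℤ) * p - p := by ring
      rwa [h9] at h8
    have e1z : (v : ℤ) = (p : ℤ) * p * V + s := by exact_mod_cast e1
    have e2z : (v' : ℤ) = (p : ℤ) * p * V' + s' := by exact_mod_cast e2
    obtain ⟨x, hx⟩ : ∃ x : ℤ, x = V' + (δ * k) - V := ⟨_, rfl⟩
    have hx2 : (p : ℤ) * p * x = s + c - s' + δ * (p - 1) := by
      rw [e1z, e2z, hrec] at hv
      rw [hx]
      linear_combination -hv
    have hpp2 : (4 : ℤ) ≤ (p : ℤ) * p := by nlinarith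
    have x0 : 0 ≤ x := by
      by_contra hcon
      have : x ≤ -1 := by omega
      have : (p : ℤ) * p * x ≤ (p : ℤ) * p * (-1) := by
        apply mul_le_mul_of_nonneg_left this; positivity
      linarith
    have x1 : x ≤ 1 := by
      by_contra hcon
      have : 2 ≤ x := by omega
      have : (p : ℤ) * p * 2 ≤ (p : ℤ) * p * x := by
        apply mul_le_mul_of_nonneg_left this; positivity
      linarith
    have hnz : s ≠ 0 ∨ s' ≠ 0 := by
      by_contra hcon
      push Not at hcon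
      obtain ⟨h1, h2⟩ := hcon
      have h1z : (s : ℤ) = 0 := by exact_mod_cast h1
      have h2z : (s' : ℤ) = 0 := by exact_mod_cast h2
      rw [h1z, h2z] at hx2
      rcases (by omega : x = 0 ∨ x = 1) with h3 | h3
      · rw [h3] at hx2; linarith
      · rw [h3] at hx2; linarith
    have hih := ih V V' x.toNat δ (δ * k) (by omega) hδ1 hδ2 he' (by
      rw [Int.toNat_of_nonneg x0, hx]; ring)
    have g1 := wt_step2 p v hp
    have g2 := wt_step2 p v' hp
    rw [← hV, ← hs] at g1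
    rw [← hV', ← hs'] at g2
    rcases hnz with h | h
    · rw [if_neg h] at g1; omega
    · rw [if_neg h] at g2; omega

section group

variable {R : Type*} [CommRing R] [IsDomain R] [WfDvdMonoid R] {t : R}

lemma exists_min_order (ht : Prime t) {G : Type*} (α : G → R) (hα : ∃ g, α g ≠ 0) :
    ∃ w, (∀ g, t ^ w ∣ α g) ∧ ∃ g, ¬ t ^ (w + 1) ∣ α g := by
  classical
  have hex : ∃ w, ∃ g, ¬ t ^ (w + 1) ∣ α g := by
    obtain ⟨g, hg⟩ := hα
    have hf : FiniteMultiplicity t (α g) := FiniteMultiplicity.of_not_isUnit ht.not_isUnit hg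
    obtain ⟨n, hn⟩ := hf
    exact ⟨n, g, hn⟩
  refine ⟨Nat.find hex, ?_, Nat.find_spec hex⟩
  intro g
  rcases Nat.eq_zero_or_pos (Nat.find hex) with h | h
  · rw [h, pow_zero]; exact one_dvd _
  · have h1 := Nat.find_min hex (m := Nat.find hex - 1) (by omega)
    push Not at h1
    have := h1 g
    rwa [Nat.sub_add_cancel h] at this

lemma two_min {G : Type*} [AddCommGroup G] [Fintype G] (ht : Prime t) (α β : G → R)
    (hα : ∃ g, α g ≠ 0) (hβ : ∃ g, β g ≠ 0) (h : ∀ g, ∑ κ, α κ * β (g - κ) = 0) :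
    ∃ (w : ℕ) (κ κ' : G), κ ≠ κ' ∧ (t ^ w ∣ α κ ∧ ¬ t ^ (w + 1) ∣ α κ) ∧
      (t ^ w ∣ α κ' ∧ ¬ t ^ (w + 1) ∣ α κ') := by
  classical
  obtain ⟨w, hw, κ0, hκ0⟩ := exists_min_order ht α hα
  obtain ⟨w', hw', k0, hk0⟩ := exists_min_order ht β hβ
  by_contra hcon
  have huniq : ∀ κ, κ ≠ κ0 → t ^ (w + 1) ∣ α κ := by
    intro κ hκ
    by_contra h1
    exact hcon ⟨w, κ, κ0, hκ, ⟨hw κ, h1⟩, ⟨hw κ0, hκ0⟩⟩
  have h1 := h (κ0 + k0)
  rw [← Finset.add_sum_erase _ _ (Finset.mem_univ κ0), add_sub_cancel_left] at h1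
  have h2 : t ^ (w + w' + 1) ∣ ∑ κ ∈ Finset.univ.erase κ0, α κ * β (κ0 + k0 - κ) := by
    apply Finset.dvd_sum
    intro κ hκ
    have := mul_dvd_mul (huniq κ (Finset.ne_of_mem_erase hκ)) (hw' (κ0 + k0 - κ))
    rwa [← pow_add, (by ring : w + 1 + w' = w + w' + 1)] at this
  have h3 : t ^ (w + w' + 1) ∣ α κ0 * β k0 := by
    have h4 : α κ0 * β k0 = - ∑ κ ∈ Finset.univ.erase κ0, α κ * β (κ0 + k0 - κ) :=
      eq_neg_of_add_eq_zero_left h1
    rw [h4]
    exact (dvd_neg).mpr h2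
  obtain ⟨x, hx⟩ := hw κ0
  obtain ⟨y, hy⟩ := hw' k0
  have hx' : ¬ t ∣ x := by
    intro h5; apply hκ0; rw [hx, pow_succ]; exact mul_dvd_mul_left _ h5
  have hy' : ¬ t ∣ y := by
    intro h5; apply hk0; rw [hy, pow_succ]; exact mul_dvd_mul_left _ h5
  rw [hx, hy, (by ring : t ^ w * x * (t ^ w' * y) = t ^ (w + w') * (x * y)), pow_succ,
    mul_dvd_mul_iff_left (pow_ne_zero _ ht.ne_zero)] at h3
  rcases ht.dvd_or_dvd h3 with h5 | h5
  · exact hx' h5
  · exact hy' h5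

end group

end Pool.Agent.SparseIrr
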