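import Pool.Agent.SparseIrr.Linear

/-!
A polynomial over a field of characteristic `p` which vanishes to order exactly `v` along the
hyperplane `x_1 + ... + x_n = 0` has at least `n ^ w` monomials, `w` the number of nonzero digits
of `v` in base `p`.
-/

namespace Pool.Agent.SparseIrr

open MvPolynomial

/-- the number of nonzero digits of `v` in base `p` -/
def wt (p v : ℕ) : ℕ := ((Nat.digits p v).filter (fun d => d ≠ 0)).length

lemma wt_zero (p : ℕ) : wt p 0 = 0 := by simp [wt]

lemma wt_step (p v : ℕ) (hp : 1 < p) :
    wt p v = wt p (v / p) + (if v % p = 0 then 0 else 1) := by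
  rcases Nat.eq_zero_or_pos v with rfl | hv
  · simp [wt]
  · unfold wt
    rw [Nat.digits_def' hp hv, List.filter_cons]
    by_cases h : v % p = 0
    · simp [h]
    · simp [h]

section sections

variable {σ : Type*} [Fintype σ] {F : Type*} [Field F] (p : ℕ) [hp : Fact p.Prime] [CharP F p]

/-- reduced exponent vectors -/
noncomputable def dl (d : σ → Fin p) : σ →₀ ℕ :=
  Finsupp.equivFunOnFinite.symm (fun i => (d i : ℕ))

omit hp in
@[simp] lemma dl_apply (d : σ → Fin p) (i : σ) : dl p d i = (d i : ℕ) := rfl

omit hp in
lemma dl_lt (d : σ → Fin p) (i : σ) : dl p d i < p := (d i).2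

omit hp in
lemma dl_add_inj (d d' : σ → Fin p) (α α' : σ →₀ ℕ)
    (h : dl p d + p • α = dl p d' + p • α') : d = d' ∧ α = α' := by
  have key : ∀ i, d i = d' i ∧ α i = α' i := by
    intro i
    have h1 := DFunLike.congr_fun h i
    simp only [Finsupp.add_apply, Finsupp.smul_apply, smul_eq_mul, dl_apply] at h1
    have b1 := (d i).2
    have b2 := (d' i).2
    have hpos : 0 < p := by omega
    have c1 : ((d i : ℕ) + p * α i) / p = α i := by
      rw [Nat.add_mul_div_left _ _ hpos, Nat.div_eq_of_lt b1, zero_add]
    have c2 : ((d' i : ℕ) + p * α' i) / p = α' i := by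
      rw [Nat.add_mul_div_left _ _ hpos, Nat.div_eq_of_lt b2, zero_add]
    have c3 : α i = α' i := by rw [← c1, ← c2, h1]
    refine ⟨Fin.ext ?_, c3⟩
    rw [c3] at h1
    omega
  exact ⟨funext fun i => (key i).1, Finsupp.ext fun i => (key i).2⟩

/-- the section of `a` at the residue `d` -/
noncomputable def sec (d : σ → Fin p) (a : MvPolynomial σ F) : MvPolynomial σ F := by
  classical
  exact ∑ β ∈ a.support with (∀ i, β i % p = (d i : ℕ)),
    monomial (β.mapRange (· / p) (Nat.zero_div p)) (coeff β a)

omit hp [CharP F p] in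
lemma coeff_sec (d : σ → Fin p) (a : MvPolynomial σ F) (α : σ →₀ ℕ) :
    coeff α (sec p d a) = coeff (dl p d + p • α) a := by
  classical
  unfold sec
  rw [coeff_sum]
  simp only [coeff_monomial]
  by_cases h : dl p d + p • α ∈ a.support
  · rw [Finset.sum_eq_single_of_mem (dl p d + p • α)]
    · rw [if_pos]
      ext i
      simp only [Finsupp.mapRange_apply, Finsupp.add_apply, Finsupp.smul_apply, smul_eq_mul,
        dl_apply]
      have b1 := (d i).2
      rw [Nat.add_mul_div_left _ _ (by omega), Nat.div_eq_of_lt b1, zero_add]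
    · rw [Finset.mem_filter]
      refine ⟨h, fun i => ?_⟩
      simp only [Finsupp.add_apply, Finsupp.smul_apply, smul_eq_mul, dl_apply]
      rw [Nat.add_mul_mod_self_left, Nat.mod_eq_of_lt (d i).2]
    · intro β hβ hne
      rw [if_neg]
      intro h1
      apply hne
      rw [Finset.mem_filter] at hβ
      ext i
      rw [← h1]
      simp only [Finsupp.mapRange_apply, Finsupp.add_apply, Finsupp.smul_apply, smul_eq_mul,
        dl_apply]
      rw [← hβ.2 i, Nat.mod_add_div]
  · rw [notMem_support_iff.mp h]
    apply Finset.sum_eq_zero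
    intro β hβ
    rw [if_neg]
    intro h1
    apply h
    rw [Finset.mem_filter] at hβ
    have : β = dl p d + p • α := by
      ext i
      rw [← h1]
      simp only [Finsupp.mapRange_apply, Finsupp.add_apply, Finsupp.smul_apply, smul_eq_mul,
        dl_apply]
      rw [← hβ.2 i, Nat.mod_add_div]
    rw [← this]
    exact hβ.1

omit hp [CharP F p] in
lemma sec_add (d : σ → Fin p) (a b : MvPolynomial σ F) :
    sec p d (a + b) = sec p d a + sec p d b := by
  ext α
  rw [coeff_add, coeff_sec, coeff_sec, coeff_sec, coeff_add]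

omit hp [CharP F p] in
lemma sec_expand_mul (d : σ → Fin p) (h c : MvPolynomial σ F) :
    sec p d (expand p h * c) = h * sec p d c := by
  classical
  induction h using MvPolynomial.induction_on' with
  | add g h hg hh => rw [map_add, add_mul, sec_add, hg, hh, add_mul]
  | monomial γ s =>
    ext α
    rw [expand_monomial, coeff_sec, coeff_monomial_mul', coeff_monomial_mul', coeff_sec]
    have hiff : p • γ ≤ dl p d + p • α ↔ γ ≤ α := by
      constructor
      · intro hle i
        have h1 := hle i
        simp only [Finsupp.add_apply, Finsupp.smul_apply, smul_eq_mul, dl_apply] at h1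
        have b1 := (d i).2
        by_contra hcon
        have h2 : α i + 1 ≤ γ i := by omega
        have h3 := Nat.mul_le_mul_left p h2
        rw [mul_add, mul_one] at h3
        omega
      · intro hle i
        have h1 := Nat.mul_le_mul_left p (hle i)
        simp only [Finsupp.add_apply, Finsupp.smul_apply, smul_eq_mul, dl_apply]
        omega
    by_cases hle : γ ≤ α
    · rw [if_pos (hiff.mpr hle), if_pos hle]
      congr 2
      ext i
      have h1 := hle i
      have h2 := Nat.mul_le_mul_left p h1
      simp only [Finsupp.add_apply, Finsupp.smul_apply, smul_eq_mul, dl_apply,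
        Finsupp.coe_tsub, Pi.sub_apply, Nat.mul_sub]
      omega
    · rw [if_neg (fun h1 => hle (hiff.mp h1)), if_neg hle]

omit [CharP F p] in
lemma sum_sec [DecidableEq σ] (a : MvPolynomial σ F) :
    a = ∑ d : σ → Fin p, monomial (dl p d) 1 * expand p (sec p d a) := by
  induction a using MvPolynomial.induction_on' with
  | add g h hg hh =>
    conv_lhs => rw [hg, hh]
    rw [← Finset.sum_add_distrib]
    apply Finset.sum_congr rfl
    intro d _
    rw [sec_add, map_add, mul_add]
  | monomial β r =>
    let d0 : σ → Fin p := fun i => ⟨β i % p, Nat.mod_lt _ hp.out.pos⟩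
    let β0 : σ →₀ ℕ := β.mapRange (· / p) (Nat.zero_div p)
    have hβ : β = dl p d0 + p • β0 := by
      ext i
      simp only [Finsupp.add_apply, Finsupp.smul_apply, smul_eq_mul, dl_apply, d0, β0,
        Finsupp.mapRange_apply]
      exact (Nat.mod_add_div _ _).symm
    rw [Finset.sum_eq_single d0]
    · have h1 : sec p d0 (monomial β r) = monomial β0 r := by
        ext α
        rw [coeff_sec, coeff_monomial, coeff_monomial]
        by_cases h : β0 = α
        · rw [if_pos h, if_pos]
          rw [hβ, h]
        · rw [if_neg h, if_neg]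
          intro h2
          rw [hβ] at h2
          exact h (dl_add_inj p _ _ _ _ h2).2
      rw [h1, expand_monomial, monomial_mul, one_mul, ← hβ]
    · intro d _ hne
      have h1 : sec p d (monomial β r) = 0 := by
        ext α
        rw [coeff_sec, coeff_monomial, coeff_zero, if_neg]
        intro h2
        rw [hβ] at h2
        exact hne (dl_add_inj p _ _ _ _ h2).1.symm
      rw [h1, map_zero, mul_zero]
    · intro h
      exact absurd (Finset.mem_univ _) h

omit hp [CharP F p] in
lemma sum_card_sec_le (a : MvPolynomial σ F) (Δ : Finset (σ → Fin p)) :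
    ∑ d ∈ Δ, (sec p d a).support.card ≤ a.support.card := by
  classical
  rw [← Finset.card_sigma]
  apply Finset.card_le_card_of_injOn (fun x => dl p x.1 + p • x.2)
  · rintro ⟨d, α⟩ hx
    have h1 := (Finset.mem_sigma.mp (Finset.mem_coe.mp hx)).2
    simp only at h1
    apply Finset.mem_coe.mpr
    rw [mem_support_iff] at h1 ⊢
    rwa [← coeff_sec]
  · rintro ⟨d, α⟩ _ ⟨d', α'⟩ _ h
    simp only at h
    obtain ⟨h1, h2⟩ := dl_add_inj p _ _ _ _ h
    subst h1 h2
    rfl

end sections


lemma eq_C_mul_of_dvd' {σ F : Type*} [Field F] (f x : MvPolynomial σ F) (hf : f ≠ 0) (hd : f ∣ x)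
    (hx : x.totalDegree ≤ f.totalDegree) : ∃ c : F, x = C c * f := by
  obtain ⟨y, rfl⟩ := hd
  by_cases hy : y = 0
  · exact ⟨0, by simp [hy]⟩
  rw [totalDegree_mul_of_isDomain hf hy] at hx
  have hy0 : y.totalDegree = 0 := by omega
  rw [totalDegree_eq_zero_iff_eq_C] at hy0
  exact ⟨coeff 0 y, by rw [← hy0, mul_comm]⟩

section linear

variable {σ : Type*} [Fintype σ] {F : Type*} [Field F]

/-- the sum of all variables -/
noncomputable def T (σ F : Type*) [Fintype σ] [Field F] : MvPolynomial σ F := ∑ i, X i

lemma coeff_T_single (i : σ) : coeff (Finsupp.single i 1) (T σ F) = 1 := by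
  classical
  unfold T
  rw [coeff_sum, Finset.sum_eq_single i]
  · simp
  · intro j _ hji
    rw [coeff_X, if_neg]
    intro h
    exact hji (Finsupp.single_left_injective one_ne_zero h)
  · intro h; exact absurd (Finset.mem_univ _) h

lemma totalDegree_T_le : (T σ F).totalDegree ≤ 1 := by
  unfold T
  apply totalDegree_finsetSum_le
  intro i _
  rw [totalDegree_X]

lemma T_ne_zero [Nonempty σ] : T σ F ≠ 0 := by
  obtain ⟨i⟩ := ‹Nonempty σ›
  intro h
  have := coeff_T_single (F := F) i
  rw [h, coeff_zero] at this
  exact zero_ne_one this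

lemma totalDegree_T [Nonempty σ] : (T σ F).totalDegree = 1 := by
  apply le_antisymm totalDegree_T_le
  obtain ⟨i⟩ := ‹Nonempty σ›
  have h : Finsupp.single i 1 ∈ (T σ F).support := by
    rw [mem_support_iff, coeff_T_single]; exact one_ne_zero
  have := le_totalDegree h
  simpa using this

lemma prime_T [Nonempty σ] : Prime (T σ F) := by
  apply Irreducible.prime
  apply irreducible_of_totalDegree_eq_one totalDegree_T
  intro x hx
  obtain ⟨i⟩ := ‹Nonempty σ›
  have := hx (Finsupp.single i 1)
  rw [coeff_T_single] at this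
  exact isUnit_of_dvd_one this

lemma expand_T (p : ℕ) [Fact p.Prime] [CharP F p] : expand p (T σ F) = (T σ F) ^ p := by
  have hE : ExpChar F p := ExpChar.prime Fact.out
  have : ExpChar (MvPolynomial σ F) p := inferInstance
  unfold T
  rw [map_sum, sum_pow_char p]
  simp

/-- the derivation with weights `l` -/
noncomputable def thetaL (l : σ → F) (h : MvPolynomial σ F) : MvPolynomial σ F :=
  ∑ i, C (l i) * theta i h

lemma coeff_thetaL (l : σ → F) (h : MvPolynomial σ F) (β : σ →₀ ℕ) :
    coeff β (thetaL l h) = (∑ i, l i * (β i : F)) * coeff β h := by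
  unfold thetaL
  rw [coeff_sum, Finset.sum_mul]
  apply Finset.sum_congr rfl
  intro i _
  rw [coeff_C_mul, coeff_theta]; ring

lemma thetaL_mul (l : σ → F) (g h : MvPolynomial σ F) :
    thetaL l (g * h) = thetaL l g * h + g * thetaL l h := by
  unfold thetaL
  rw [Finset.sum_mul, Finset.mul_sum, ← Finset.sum_add_distrib]
  apply Finset.sum_congr rfl
  intro i _
  rw [theta_mul]; ring

lemma thetaL_pow (l : σ → F) (g : MvPolynomial σ F) (n : ℕ) :
    thetaL l (g ^ n) = (n : MvPolynomial σ F) * g ^ (n - 1) * thetaL l g := by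
  unfold thetaL
  rw [Finset.mul_sum]
  apply Finset.sum_congr rfl
  intro i _
  rw [theta_pow]; ring

lemma thetaL_sum {ι : Type*} (s : Finset ι) (l : σ → F) (g : ι → MvPolynomial σ F) :
    thetaL l (∑ j ∈ s, g j) = ∑ j ∈ s, thetaL l (g j) := by
  ext β
  rw [coeff_thetaL, coeff_sum, coeff_sum, Finset.mul_sum]
  apply Finset.sum_congr rfl
  intro j _
  rw [coeff_thetaL]

lemma thetaL_T (l : σ → F) : thetaL l (T σ F) = ∑ i, C (l i) * X i := by
  classical
  unfold thetaL
  apply Finset.sum_congr rfl
  intro i _
  congr 1
  unfold theta T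
  rw [map_sum, Finset.sum_eq_single i]
  · simp
  · intro j _ hji
    exact pderiv_X_of_ne hji
  · intro h; exact absurd (Finset.mem_univ _) h

/-- if `T` divides a linear form then its coefficients are all equal -/
lemma const_of_dvd (l : σ → F) (h : T σ F ∣ ∑ i, C (l i) * X i) (i j : σ) : l i = l j := by
  classical
  have : Nonempty σ := ⟨i⟩
  have hdeg : (∑ i, C (l i) * X i : MvPolynomial σ F).totalDegree ≤ (T σ F).totalDegree := by
    rw [totalDegree_T]
    apply totalDegree_finsetSum_le
    intro k _
    refine (totalDegree_mul _ _).trans ?_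
    rw [totalDegree_C, totalDegree_X]
  obtain ⟨c, hc⟩ := eq_C_mul_of_dvd' _ _ T_ne_zero h hdeg
  have key : ∀ k, l k = c := by
    intro k
    have h1 := congrArg (coeff (Finsupp.single k 1)) hc
    rw [coeff_C_mul, coeff_T_single, mul_one, coeff_sum, Finset.sum_eq_single k] at h1
    · simpa [coeff_C_mul] using h1
    · intro b _ hb
      rw [coeff_C_mul, coeff_X, if_neg, mul_zero]
      intro h
      exact hb (Finsupp.single_left_injective one_ne_zero h)
    · intro h; exact absurd (Finset.mem_univ _) h
  rw [key i, key j]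

end linear

end Pool.Agent.SparseIrr
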