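import Pool.Agent.SparseIrr.Vanish

namespace Pool.Agent.SparseIrr

open MvPolynomial

variable {σ : Type*} [Fintype σ] [DecidableEq σ] {F : Type*} [Field F] (p : ℕ)
  [hp : Fact p.Prime] [CharP F p]

omit hp [CharP F p] in
lemma exists_weights (Δ : Finset (σ → Fin p)) (hΔ : Δ.Nonempty) (hcard : Δ.card < Fintype.card σ) :
    ∃ (l : σ → F) (μ : F), (∃ i j, l i ≠ l j) ∧ ∀ d ∈ Δ, ∑ i, l i * ((d i : ℕ) : F) = μ := by
  have hne : Nonempty σ := by
    rw [← Fintype.card_pos_iff]; omega
  obtain ⟨i0⟩ := hne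
  let L : (σ → F) →ₗ[F] (Δ → F) :=
    { toFun := fun w d => (∑ i, (if i = i0 then 0 else w i) * ((d.1 i : ℕ) : F)) - w i0
      map_add' := by
        intro w w'
        ext d
        simp only [Pi.add_apply]
        have : ∀ i, (if i = i0 then 0 else w i + w' i) * ((d.1 i : ℕ) : F)
            = (if i = i0 then 0 else w i) * ((d.1 i : ℕ) : F)
              + (if i = i0 then 0 else w' i) * ((d.1 i : ℕ) : F) := by
          intro i; split_ifs <;> ring
        simp only [this, Finset.sum_add_distrib]
        ring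
      map_smul' := by
        intro r w
        ext d
        simp only [Pi.smul_apply, smul_eq_mul, RingHom.id_apply]
        have : ∀ i, (if i = i0 then 0 else r * w i) * ((d.1 i : ℕ) : F)
            = r * ((if i = i0 then 0 else w i) * ((d.1 i : ℕ) : F)) := by
          intro i; split_ifs <;> ring
        simp only [this, ← Finset.mul_sum]
        ring }
  have hker : LinearMap.ker L ≠ ⊥ := by
    apply LinearMap.ker_ne_bot_of_finrank_lt
    rw [Module.finrank_pi, Module.finrank_pi, Fintype.card_coe]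
    exact hcard
  obtain ⟨w, hw, hw0⟩ := (Submodule.ne_bot_iff _).mp hker
  rw [LinearMap.mem_ker] at hw
  have hwd : ∀ d ∈ Δ, ∑ i, (if i = i0 then 0 else w i) * ((d i : ℕ) : F) = w i0 := by
    intro d hd
    have := congrFun hw ⟨d, hd⟩
    simp only [L, LinearMap.coe_mk, AddHom.coe_mk, Pi.zero_apply] at this
    exact sub_eq_zero.mp this
  refine ⟨fun i => if i = i0 then 0 else w i, w i0, ?_, hwd⟩
  by_contra hcon
  push Not at hcon
  apply hw0
  have hz : ∀ i, (if i = i0 then 0 else w i) = 0 := by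
    intro i
    have := hcon i i0
    simpa using this
  obtain ⟨d, hd⟩ := hΔ
  have h1 := hwd d hd
  simp only [hz, zero_mul, Finset.sum_const_zero] at h1
  ext i
  rw [Pi.zero_apply]
  by_cases h : i = i0
  · rw [h, ← h1]
  · have := hz i
    rwa [if_neg h] at this

omit hp [DecidableEq σ] in
lemma thetaL_expand (l : σ → F) (s : MvPolynomial σ F) : thetaL l (expand p s) = 0 := by
  ext β
  rw [coeff_thetaL, coeff_zero]
  by_cases h : ∀ i, p ∣ β i
  · have : ∑ i, l i * (β i : F) = 0 := by
      apply Finset.sum_eq_zero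
      intro i _
      rw [(CharP.cast_eq_zero_iff F p (β i)).mpr (h i), mul_zero]
    rw [this, zero_mul]
  · push Not at h
    obtain ⟨i, hi⟩ := h
    rw [coeff_expand_of_not_dvd s hi, mul_zero]

omit hp [CharP F p] [DecidableEq σ] in
lemma thetaL_monomial (l : σ → F) (d : σ → Fin p) :
    thetaL l (monomial (dl p d) (1 : F)) = C (∑ i, l i * ((d i : ℕ) : F)) * monomial (dl p d) 1 := by
  classical
  ext β
  rw [coeff_thetaL, coeff_C_mul, coeff_monomial]
  by_cases h : dl p d = β
  · rw [if_pos h, ← h]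
    simp
  · rw [if_neg h, mul_zero, mul_zero]

lemma pow_dvd_of_dvd_sec (c : MvPolynomial σ F) (h : ∀ d, T σ F ∣ sec p d c) :
    (T σ F) ^ p ∣ c := by
  rw [sum_sec p c]
  apply Finset.dvd_sum
  intro d _
  apply Dvd.dvd.mul_left
  rw [← expand_T p]
  exact map_dvd _ (h d)

open scoped Classical in
/-- the residues at which the section is not divisible by `T` -/
noncomputable def Del (c : MvPolynomial σ F) : Finset (σ → Fin p) :=
  Finset.univ.filter (fun d => ¬ T σ F ∣ sec p d c)

lemma del_nonempty [Nonempty σ] (v0 : ℕ) (hv0 : v0 < p) (b c : MvPolynomial σ F)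
    (hc : c = (T σ F) ^ v0 * b) (hb : ¬ T σ F ∣ b) : (Del p c).Nonempty := by
  classical
  by_contra hcon
  rw [Finset.not_nonempty_iff_eq_empty] at hcon
  have h1 : ∀ d, T σ F ∣ sec p d c := by
    intro d
    by_contra h
    have : d ∈ Del p c := by
      unfold Del
      rw [Finset.mem_filter]
      exact ⟨Finset.mem_univ _, h⟩
    rw [hcon] at this
    exact absurd this (Finset.notMem_empty d)
  have h2 := pow_dvd_of_dvd_sec p c h1
  have h3 : (T σ F) ^ (v0 + 1) ∣ (T σ F) ^ v0 * b := by
    rw [← hc]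
    exact (pow_dvd_pow _ (by omega)).trans h2
  rw [pow_succ] at h3
  exact hb ((mul_dvd_mul_iff_left (pow_ne_zero _ T_ne_zero)).mp h3)

lemma card_del_ge [Nonempty σ] (v0 : ℕ) (hv : v0 ≠ 0) (hv0 : v0 < p) (b c : MvPolynomial σ F)
    (hc : c = (T σ F) ^ v0 * b) (hb : ¬ T σ F ∣ b) : Fintype.card σ ≤ (Del p c).card := by
  classical
  by_contra hcon
  push Not at hcon
  obtain ⟨l, μ, ⟨i, j, hij⟩, hl⟩ :=
    exists_weights (F := F) p (Del p c) (del_nonempty p v0 hv0 b c hc hb) hcon
  have hprime : Prime (T σ F) := prime_T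
  have h1 : (T σ F) ^ p ∣ thetaL l c - C μ * c := by
    have e : thetaL l c - C μ * c = ∑ d : σ → Fin p,
        (C (∑ i, l i * ((d i : ℕ) : F) - μ)) * (monomial (dl p d) 1 * expand p (sec p d c)) := by
      conv_lhs => rw [sum_sec p c]
      rw [thetaL_sum, Finset.mul_sum, ← Finset.sum_sub_distrib]
      apply Finset.sum_congr rfl
      intro d _
      rw [thetaL_mul, thetaL_expand, thetaL_monomial, map_sub]
      ring
    rw [e]
    apply Finset.dvd_sum
    intro d _
    by_cases hd : d ∈ Del p c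
    · rw [hl d hd, sub_self, map_zero, zero_mul]
      exact dvd_zero _
    · have hd' : T σ F ∣ sec p d c := by
        by_contra h
        exact hd (by unfold Del; rw [Finset.mem_filter]; exact ⟨Finset.mem_univ _, h⟩)
      apply Dvd.dvd.mul_left
      apply Dvd.dvd.mul_left
      rw [← expand_T p]
      exact map_dvd _ hd'
  obtain ⟨w, rfl⟩ : ∃ w, v0 = w + 1 := ⟨v0 - 1, by omega⟩
  have h2 : thetaL l c - C μ * c = (T σ F) ^ w *
      (((w + 1 : ℕ) : MvPolynomial σ F) * (∑ i, C (l i) * X i) * b
        + T σ F * (thetaL l b - C μ * b)) := by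
    rw [hc, thetaL_mul, thetaL_pow, thetaL_T, Nat.add_sub_cancel]
    ring
  have h3 : (T σ F) ^ w * T σ F ∣ (T σ F) ^ w *
      (((w + 1 : ℕ) : MvPolynomial σ F) * (∑ i, C (l i) * X i) * b
        + T σ F * (thetaL l b - C μ * b)) := by
    rw [← h2, ← pow_succ]
    exact (pow_dvd_pow _ (by omega)).trans h1
  have h4 := (mul_dvd_mul_iff_left (pow_ne_zero w (T_ne_zero (σ := σ) (F := F)))).mp h3
  have h5 : T σ F ∣ ((w + 1 : ℕ) : MvPolynomial σ F) * (∑ i, C (l i) * X i) * b :=
    (dvd_add_left (Dvd.intro _ rfl)).mp h4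
  rcases hprime.dvd_or_dvd h5 with h6 | h6
  · rcases hprime.dvd_or_dvd h6 with h7 | h7
    · apply hprime.not_isUnit
      apply isUnit_of_dvd_unit h7
      have h8 : ((w + 1 : ℕ) : MvPolynomial σ F) = C ((w + 1 : ℕ) : F) := by simp
      rw [h8]
      apply IsUnit.map
      rw [isUnit_iff_ne_zero]
      intro h9
      have := (CharP.cast_eq_zero_iff F p (w + 1)).mp h9
      have := Nat.le_of_dvd (by omega) this
      omega
    · exact hij (const_of_dvd l h7 i j)
  · exact hb h6

/-- Sparse polynomials vanish along `x_1 + ... + x_n = 0` only to orders with few nonzero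
digits. -/
theorem card_support_ge_of_order [Nonempty σ] (v : ℕ) : ∀ a : MvPolynomial σ F,
    (T σ F) ^ v ∣ a → ¬ (T σ F) ^ (v + 1) ∣ a →
      Fintype.card σ ^ (wt p v) ≤ a.support.card := by
  classical
  induction v using Nat.strong_induction_on with
  | _ v ih =>
  intro a h1 h2
  have hp1 : 1 < p := hp.out.one_lt
  rcases Nat.eq_zero_or_pos v with rfl | hv
  · rw [wt_zero, pow_zero, Nat.one_le_iff_ne_zero, Finset.card_ne_zero, support_nonempty]
    rintro rfl
    exact h2 (dvd_zero _)
  · obtain ⟨b, hb⟩ := h1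
    have hTb : ¬ T σ F ∣ b := by
      intro h
      apply h2
      rw [hb, pow_succ]
      exact mul_dvd_mul_left _ h
    have hlt : v / p < v := Nat.div_lt_self hv hp1
    have hmod : v % p < p := Nat.mod_lt _ hp.out.pos
    set c := (T σ F) ^ (v % p) * b with hc
    have hac : a = expand p ((T σ F) ^ (v / p)) * c := by
      rw [map_pow, expand_T p, ← pow_mul, hc, ← mul_assoc, ← pow_add, Nat.div_add_mod, hb]
    have hsec : ∀ d, sec p d a = (T σ F) ^ (v / p) * sec p d c := by
      intro d
      rw [hac, sec_expand_mul]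
    have hstep : ∀ d ∈ Del p c, Fintype.card σ ^ (wt p (v / p)) ≤ (sec p d a).support.card := by
      intro d hd
      apply ih (v / p) hlt
      · rw [hsec]; exact Dvd.intro _ rfl
      · rw [hsec, pow_succ, mul_dvd_mul_iff_left (pow_ne_zero _ T_ne_zero)]
        unfold Del at hd
        exact (Finset.mem_filter.mp hd).2
    have hsum : (Del p c).card * Fintype.card σ ^ (wt p (v / p)) ≤ a.support.card := by
      calc (Del p c).card * Fintype.card σ ^ (wt p (v / p))
          = ∑ _d ∈ Del p c, Fintype.card σ ^ (wt p (v / p)) := by rw [Finset.sum_const, smul_eq_mul]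
        _ ≤ ∑ d ∈ Del p c, (sec p d a).support.card := Finset.sum_le_sum hstep
        _ ≤ a.support.card := sum_card_sec_le p a _
    rw [wt_step p v hp1]
    by_cases h0 : v % p = 0
    · rw [if_pos h0, add_zero]
      have h3 : 1 ≤ (Del p c).card :=
        Finset.card_pos.mpr (del_nonempty p (v % p) hmod b c hc hTb)
      calc _ ≤ (Del p c).card * Fintype.card σ ^ (wt p (v / p)) := Nat.le_mul_of_pos_left _ h3
        _ ≤ _ := hsum
    · rw [if_neg h0, pow_succ, mul_comm]
      have h3 := card_del_ge p (v % p) h0 hmod b c hc hTb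
      exact (Nat.mul_le_mul_right _ h3).trans hsum

end Pool.Agent.SparseIrr
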